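import Pool.Agent.helper74.VD.Defs

/-!
# Project VD (MP_07c750_an), block A (quantum part): FINAL STATEMENTS of the sub-blocks A0 (geometry), A1 (packets), A2 (beams)

All rows of block A have names of four letters beginning with `A` (`vd:AXXX`). `C` always depends on `(d, Γ, K, k, B)` and the radii, never on `R`, on the number of derivatives `Kd`, on the exponents. All statements hold for `d ≥ 1` (for `d = 0` everything is trivial; add `1 ≤ d` if it is needed).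
RULES: as in `Defs.lean`.
-/

set_option autoImplicit false

open scoped ContDiff Topology InnerProductSpace ComplexConjugate ENNReal
open MeasureTheory Filter Set

namespace Pool.Agent.VD

open Pool.Agent.VQ (CH)

noncomputable section

/-- the class of block A -/
structure OKA (Γ : Type) {d : ℕ} [Group Γ] [MulAction Γ (V d)] (K : Set (V d)) (k : ℝ) (B : ℕ → ℕ → ℝ) (G : V d → V d →L[ℝ] V d) (Φ : ℝ → P d → P d) : Prop where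
  fd : FdK Γ K
  cls : Cls Γ K k B G
  flow : IsFlow G Φ

/-- the potential of the half density operator: `dens^(1/2) lap (dens^(-1/2) u) = ∂_i (h^(ij) ∂_j u) - VG u` -/
def VG {d : ℕ} (G : V d → V d →L[ℝ] V d) (x : V d) : ℂ := -((Real.sqrt (dens G x) : ℝ) : ℂ) * lap G (fun y => (((Real.sqrt (dens G y))⁻¹ : ℝ) : ℂ)) x

/-! ## A0: geometry -/

/-- **AMVI** invariance of the volume. `dens(γx) |det Dγ(x)| = dens x` (isometry, determinants); change of variables. -/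
def AMVI_stmt : Prop := ∀ (d : ℕ) (Γ : Type) [Group Γ] [MulAction Γ (V d)] (K : Set (V d)) (k : ℝ) (B : ℕ → ℕ → ℝ) (G : V d → V d →L[ℝ] V d), FdK Γ K → Cls Γ K k B G →
  Countable Γ ∧ ContDiff ℝ ∞ (dens G) ∧ (∀ x, 0 < dens G x) ∧ SigmaFinite (mv G) ∧ (∀ S : Set (V d), IsCompact S → mv G S < ⊤) ∧ (∀ γ : Γ, MeasurePreserving (fun x : V d => γ • x) (mv G) (mv G)) ∧
  (∀ (γ : Γ) (x : V d), dens G (γ • x) * |(fderiv ℝ (fun y : V d => γ • y) x).det| = dens G x) ∧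
  (∀ (E : Type) [NormedAddCommGroup E] [NormedSpace ℝ E] (f : V d → E), ∫ x, f x ∂mv G = ∫ x, dens G x • f x) ∧
  ∀ (φ : V d → ℂ) (γ : Γ) (x : V d), ContDiff ℝ 2 φ → lap G (fun y => φ (γ • y)) x = lap G φ (γ • x)

/-- **ALFX** the lift of `Γ` to phase space and the flow. -/
def ALFX_stmt : Prop := ∀ (d : ℕ) (Γ : Type) [Group Γ] [MulAction Γ (V d)] (K : Set (V d)) (k : ℝ) (B : ℕ → ℕ → ℝ) (G : V d → V d →L[ℝ] V d) (Φ : ℝ → P d → P d), OKA Γ K k B G Φ →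
  (∀ γ : Γ, ContDiff ℝ ∞ (lft γ : P d → P d)) ∧ (∀ p : P d, lft (1 : Γ) p = p) ∧ (∀ (a b : Γ) (p : P d), lft (a * b) p = lft a (lft b p)) ∧ (∀ γ : Γ, MeasurePreserving (lft γ : P d → P d) volume volume) ∧
  (∀ (γ : Γ) (p : P d), Ham G (lft γ p) = Ham G p) ∧ (∀ (γ : Γ) (t : ℝ) (p : P d), Φ t (lft γ p) = lft γ (Φ t p)) ∧ (∀ (t : ℝ) (p : P d), Ham G (Φ t p) = Ham G p) ∧ (∀ t : ℝ, MeasurePreserving (Φ t) volume volume) ∧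
  (∀ (γ : Γ) (p v w : P d), omg (fderiv ℝ (lft γ : P d → P d) p v) (fderiv ℝ (lft γ : P d → P d) p w) = omg v w) ∧
  (∀ (t : ℝ) (p v w : P d), omg (fderiv ℝ (Φ t) p v) (fderiv ℝ (Φ t) p w) = omg v w) ∧
  ∀ (γ : Γ) (p : P d) (w : V d), ⟪(lft γ p).2, fderiv ℝ (fun y : V d => γ • y) p.1 w⟫_ℝ = ⟪p.2, w⟫_ℝ

/-- **AGRD** Green's formula in both settings. -/
def AGRD_stmt : Prop := ∀ (d : ℕ) (Γ : Type) [Group Γ] [MulAction Γ (V d)] (K : Set (V d)) (k : ℝ) (B : ℕ → ℕ → ℝ) (G : V d → V d →L[ℝ] V d), FdK Γ K → Cls Γ K k B G → ∀ (Λ : Subgroup Γ) (F : Set (V d)) (T : Set Γ), Dm Λ F T →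
  ∀ φ ψ : V d → ℂ, FH Λ F φ → FH Λ F ψ → ContDiff ℝ 2 φ → ContDiff ℝ 2 ψ → ∫ z in F, lap G φ z * conj (ψ z) ∂mv G = ∫ z in F, φ z * conj (lap G ψ z) ∂mv G

/-- **AHLD** the half density formula (pure algebra of derivatives) and the bounds of `dens`, `h^(ij)`, `VG` on balls, uniform in the class. -/
def AHLD_stmt : Prop := ∀ (d : ℕ) (Γ : Type) [Group Γ] [MulAction Γ (V d)] (K : Set (V d)) (k : ℝ) (B : ℕ → ℕ → ℝ) (r : ℝ) (n : ℕ), ∃ C : ℝ, 1 ≤ C ∧ ∀ G : V d → V d →L[ℝ] V d, FdK Γ K → Cls Γ K k B G →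
  (∀ (u : V d → ℂ) (x : V d), ContDiff ℝ 2 u → lap G (fun y => u y * (((Real.sqrt (dens G y))⁻¹ : ℝ) : ℂ)) x = (((Real.sqrt (dens G x))⁻¹ : ℝ) : ℂ) *
    (∑ i : Fin d, fderiv ℝ (fun y => fderiv ℝ u y (IG G y (EuclideanSpace.single i 1))) x (EuclideanSpace.single i 1) - VG G x * u x)) ∧
  ContDiff ℝ ∞ (VG G) ∧ ContDiff ℝ ∞ (IG G) ∧ (∀ x u v : V d, ⟪IG G x u, v⟫_ℝ = ⟪u, IG G x v⟫_ℝ) ∧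
  ∀ x : V d, ‖x‖ ≤ r → C⁻¹ ≤ dens G x ∧ (∀ m ≤ n, ‖iteratedFDeriv ℝ m (dens G) x‖ ≤ C ∧ ‖iteratedFDeriv ℝ m (fun y => (Real.sqrt (dens G y))⁻¹) x‖ ≤ C ∧ ‖iteratedFDeriv ℝ m (VG G) x‖ ≤ C ∧ ‖iteratedFDeriv ℝ m (IG G) x‖ ≤ C) ∧
    ∀ u : V d, ‖u‖ ^ 2 ≤ C * ⟪IG G x u, u⟫_ℝ ∧ ⟪IG G x u, u⟫_ℝ ≤ C * ‖u‖ ^ 2

/-- **ASGF** finite sets of chart changes, with bounds. -/
def ASGF_stmt : Prop := ∀ (d : ℕ) (Γ : Type) [Group Γ] [MulAction Γ (V d)] (K : Set (V d)), FdK Γ K → ∀ (r : ℝ) (n : ℕ), (SG Γ d r).Finite ∧ (∀ γ ∈ SG Γ d r, γ⁻¹ ∈ SG Γ d r) ∧ ∃ C : ℝ, 1 ≤ C ∧ ∀ γ ∈ SG Γ d r, ∀ x : V d, ‖x‖ ≤ r →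
  (∀ m ≤ n, ‖iteratedFDeriv ℝ m (fun y : V d => γ • y) x‖ ≤ C) ∧ (∀ u : V d, ‖u‖ ≤ C * ‖fderiv ℝ (fun y : V d => γ • y) x u‖) ∧ (∀ y : V d, ‖y‖ ≤ r → ‖γ • x - γ • y‖ ≤ C * ‖x - y‖) ∧
  ∀ p q : P d, ‖p.1‖ ≤ r → ‖q.1‖ ≤ r → ‖p.2‖ ≤ r → ‖q.2‖ ≤ r → ‖(lft γ p : P d)‖ ≤ C ∧ dist (lft γ p : P d) (lft γ q) ≤ C * dist p q ∧ ‖fderiv ℝ (lft γ : P d → P d) p‖ ≤ C

/-- **ACNF** confinement and bounds of the flow for bounded time. -/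
def ACNF_stmt : Prop := ∀ (d : ℕ) (Γ : Type) [Group Γ] [MulAction Γ (V d)] (K : Set (V d)) (k : ℝ) (B : ℕ → ℕ → ℝ) (r t0 : ℝ), FdK Γ K → ∃ C : ℝ, 1 ≤ C ∧ ∀ (G : V d → V d →L[ℝ] V d) (Φ : ℝ → P d → P d), OKA Γ K k B G Φ →
  ∀ (p : P d) (t : ℝ), ‖p.1‖ ≤ r → Ham G p ≤ 2 → |t| ≤ t0 → ‖(Φ t p).1‖ ≤ C ∧ ‖(Φ t p).2‖ ≤ C ∧ ‖fderiv ℝ (Φ t) p‖ ≤ C ∧
    (∀ q : P d, ‖q.1‖ ≤ r → Ham G q ≤ 2 → dist (Φ t p) (Φ t q) ≤ C * dist p q) ∧ dist (Φ t p) p ≤ C * |t|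

/-- **APUE** partitions of unity exist. -/
def APUE_stmt : Prop := ∀ (d : ℕ) (Γ : Type) [Group Γ] [MulAction Γ (V d)] (K : Set (V d)), FdK Γ K → ∃ (r0 : ℝ) (χ : V d → ℝ), PU Γ r0 χ ∧ ∀ x ∈ K, ‖x‖ ≤ r0 - 1

/-- **ADMD** measure theory of the index set and of the two settings. The third part: integrals over `YS` are sums over the charts. -/
def ADMD_stmt : Prop := ∀ (d : ℕ) (Γ : Type) [Group Γ] [MulAction Γ (V d)] (K : Set (V d)) (k : ℝ) (B : ℕ → ℕ → ℝ) (G : V d → V d →L[ℝ] V d), FdK Γ K → Cls Γ K k B G →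
  SigmaFinite (mY Γ d) ∧ (∀ γ : Γ, MeasurePreserving (fun y : YS Γ d => γ • y) (mY Γ d) (mY Γ d)) ∧
  (∀ f : YS Γ d → ENNReal, Measurable f ↔ ∀ γ : Γ, Measurable fun p : P d => f (γ, p)) ∧ (∀ f : YS Γ d → ENNReal, Measurable f → ∫⁻ y, f y ∂mY Γ d = ∑' γ : Γ, ∫⁻ p : P d, f (γ, p)) ∧
  (∀ (r0 c R : ℝ), MeasurableSet (GW Γ G r0 c R) ∧ (∀ (γ : Γ) (y : YS Γ d), γ • y ∈ GW Γ G r0 c R ↔ y ∈ GW Γ G r0 c R) ∧ volume {p : P d | ‖p.1‖ ≤ r0 ∧ |Ep G p| ≤ c * R ^ (-(1 / 4) : ℝ)} < ⊤) ∧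
  ∀ (Λ : Subgroup Γ) (F : Set (V d)) (T : Set Γ), Dm Λ F T → MeasurableSet F ∧ MeasurableSet (DT d T) ∧ (∀ z : V d, ∃! γ : Λ, (γ : Γ) • z ∈ F) ∧ ∀ y : YS Γ d, ∃! γ : Λ, (γ : Γ) • y ∈ DT d T

/-! ## A1: packets -/

/-- **ABRD** the profile. `bR = ∫ e^(-R|v|²) ch² ≤ (π/R)^(d/2)`. -/
def ABRD_stmt : Prop := ∀ (d : ℕ) (ch : ℝ → ℝ) (ζ : ℝ), CH ch → 0 < ζ → ζ ≤ 1 / 8 → ∃ R0 : ℝ, 1 ≤ R0 ∧ ∀ R : ℝ, R0 ≤ R →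
  ContDiff ℝ ∞ (b0 ch ζ R : V d → ℝ) ∧ (∀ v : V d, b0 ch ζ R v ≠ 0 → ‖v‖ ≤ R ^ (-(1 / 2) + ζ)) ∧ (∀ v : V d, 0 ≤ b0 ch ζ R v ∧ b0 ch ζ R v ≤ Real.exp (-(R * ‖v‖ ^ 2 / 2))) ∧ R ^ (-(1 / 2) + ζ) ≤ 1 / 4 ∧
  0 < bR d ch ζ R ∧ bR d ch ζ R ≤ (Real.pi / R) ^ ((d : ℝ) / 2) ∧ (1 - R ^ (-(1 / 2) : ℝ)) * (Real.pi / R) ^ ((d : ℝ) / 2) ≤ bR d ch ζ R ∧
  cR d ch ζ R ^ 2 * bR d ch ζ R = (R / (2 * Real.pi)) ^ d ∧ 0 < cR d ch ζ R ∧ cR d ch ζ R ≤ R ^ (3 * (d : ℝ) / 4) ∧ ∫ v : V d, b0 ch ζ R v ≤ (2 * Real.pi / R) ^ ((d : ℝ) / 2)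

/-- **AQSD** regularity of packets, analysis, synthesis; duality; the norm of one packet. -/
def AQSD_stmt : Prop := ∀ (d : ℕ) (Γ : Type) [Group Γ] [MulAction Γ (V d)] (K : Set (V d)) (k : ℝ) (B : ℕ → ℕ → ℝ) (r0 : ℝ) (χ : V d → ℝ) (ch : ℝ → ℝ) (ζ : ℝ), FdK Γ K → PU Γ r0 χ → CH ch → 0 < ζ → ζ ≤ 1 / 8 → ∃ R0 : ℝ, 1 ≤ R0 ∧ ∀ (R : ℝ) (G : V d → V d →L[ℝ] V d), R0 ≤ R → Cls Γ K k B G →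
  (∀ γ : Γ, Continuous fun x : P d × V d => Gp G χ ch ζ R ((γ, x.1) : YS Γ d) x.2) ∧
  (∀ (y : YS Γ d) (z : V d), Gp G χ ch ζ R y z ≠ 0 → ‖y.2.1‖ ≤ r0 - 1 ∧ ‖y.1⁻¹ • z - y.2.1‖ ≤ R ^ (-(1 / 2) + ζ) ∧ ‖y.1⁻¹ • z‖ ≤ r0) ∧ (∀ (y : YS Γ d) (z : V d), ‖Gp G χ ch ζ R y z‖ ≤ R ^ (3 * (d : ℝ) / 4 + ζ)) ∧
  (∀ (γ : Γ) (y : YS Γ d) (z : V d), Gp G χ ch ζ R (γ • y) (γ • z) = Gp G χ ch ζ R y z) ∧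
  (∀ y : YS Γ d, ∫ z, ‖Gp G χ ch ζ R y z‖ ^ 2 ∂mv G = χ y.2.1 ^ 2 * (R / (2 * Real.pi)) ^ d) ∧ (∀ y : YS Γ d, ∫ z, ‖Gp G χ ch ζ R y z‖ ∂mv G ≤ R ^ ((d : ℝ) / 4 + ζ)) ∧
  ∀ (Λ : Subgroup Γ) (F : Set (V d)) (T : Set Γ), Dm Λ F T → (∀ φ : V d → ℂ, FH Λ F φ → FP Λ T (QF G χ ch ζ R φ) ∧ ∀ γ : Γ, Continuous fun p : P d => QF G χ ch ζ R φ ((γ, p) : YS Γ d)) ∧ (∀ v : YS Γ d → ℂ, FP Λ T v → FH Λ F (Qs G r0 χ ch ζ R v)) ∧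
    ∀ (φ : V d → ℂ) (v : YS Γ d → ℂ), FH Λ F φ → FP Λ T v → ∫ y in DT d T ∩ GW Γ G r0 2 R, QF G χ ch ζ R φ y * conj (v y) ∂mY Γ d = ∫ z in F, φ z * conj (Qs G r0 χ ch ζ R v z) ∂mv G

/-- **AISD** THE NEAR ISOMETRY (over ALL momenta). Plancherel in `ξ` for fixed `(γ, x)`: `∫ |QF φ (γ, x, ξ)|² dξ = χ(x)² bR⁻¹ ∫ |φ(γ w)|² dens(w) b0(w - x)² dw`; sum over `γ`, integral over `x`: `∫_F |φ|² m dmv`, `m(z) = ∑_γ (χ² * b0²/bR)(γ⁻¹ z) = 1 + O(R^(-1/2+ζ))` (`χ²` is Lipschitz, `∑_γ χ(γ⁻¹ z)² = 1`). -/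
def AISD_stmt : Prop := ∀ (d : ℕ) (Γ : Type) [Group Γ] [MulAction Γ (V d)] (K : Set (V d)) (k : ℝ) (B : ℕ → ℕ → ℝ) (r0 : ℝ) (χ : V d → ℝ) (ch : ℝ → ℝ) (ζ : ℝ), FdK Γ K → PU Γ r0 χ → CH ch → 0 < ζ → ζ ≤ 1 / 8 → ∃ R0 : ℝ, 1 ≤ R0 ∧ ∀ (R : ℝ) (G : V d → V d →L[ℝ] V d), R0 ≤ R → Cls Γ K k B G →
  ∀ (Λ : Subgroup Γ) (F : Set (V d)) (T : Set Γ), Dm Λ F T → ∀ φ : V d → ℂ, FH Λ F φ →
    ∫⁻ y in DT d T, ‖QF G χ ch ζ R φ y‖ₑ ^ 2 ∂mY Γ d ≤ ENNReal.ofReal ((1 + R ^ (-(1 / 4) : ℝ)) * nn G F φ) ∧ ENNReal.ofReal ((1 - R ^ (-(1 / 4) : ℝ)) * nn G F φ) ≤ ∫⁻ y in DT d T, ‖QF G χ ch ζ R φ y‖ₑ ^ 2 ∂mY Γ d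

/-- **AQAD** consequences. (2) duality. (3) `u = Qs (QF φ) - φ`: `∫ u conj u = [∫_all QF φ conj QF u - ∫ φ conj u] - ∫_(∉ GW) QF φ conj QF u` (AISD polarised). -/
def AQAD_stmt : Prop := ∀ (d : ℕ) (Γ : Type) [Group Γ] [MulAction Γ (V d)] (K : Set (V d)) (k : ℝ) (B : ℕ → ℕ → ℝ) (r0 : ℝ) (χ : V d → ℝ) (ch : ℝ → ℝ) (ζ : ℝ), FdK Γ K → PU Γ r0 χ → CH ch → 0 < ζ → ζ ≤ 1 / 8 → ∃ R0 : ℝ, 1 ≤ R0 ∧ ∀ (R : ℝ) (G : V d → V d →L[ℝ] V d), R0 ≤ R → Cls Γ K k B G →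
  ∀ (Λ : Subgroup Γ) (F : Set (V d)) (T : Set Γ), Dm Λ F T → (∀ φ : V d → ℂ, FH Λ F φ → nP G r0 T 2 R (QF G χ ch ζ R φ) ≤ (1 + R ^ (-(1 / 4) : ℝ)) * nn G F φ ∧
    nn G F (fun z => Qs G r0 χ ch ζ R (QF (Γ := Γ) G χ ch ζ R φ) z - φ z) ≤ 8 * (R ^ (-(1 / 2) : ℝ) * nn G F φ + (∫⁻ y in DT d T \ GW Γ G r0 2 R, ‖QF G χ ch ζ R φ y‖ₑ ^ 2 ∂mY Γ d).toReal)) ∧
  ∀ v : YS Γ d → ℂ, FP Λ T v → nn G F (Qs G r0 χ ch ζ R v) ≤ (1 + R ^ (-(1 / 4) : ℝ)) * nP G r0 T 2 R v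

/-- **AELD** ENERGY LOCALISATION with the bounded weight `(Ep - E0)²/(1 + |ξ|²)²`. For fixed `(γ, x)`: `QF φ (γ, x, ·)` is the Fourier transform of `W = u b`, `u(w) = φ(γ w) dens(w)^(1/2)`, `b = c_R χ(x) b0(· - x)`; `h^(ij)(x) ∂_ij W = b ∂_i(h^(ij) ∂_j u) + ∂_i Z_i + Z_0 + ∂_ij Z_ij` with `Z_i = O(R^(1/2+ζ)) u`,
`Z_0 = O(R^(1+2ζ)) u`, `Z_ij = (h^(ij)(x) - h^(ij)(w)) W` (all derivatives are moved away from `u`, AHLD), divided by `R² (1 + |ξ|²)`: bounded Fourier multipliers, no elliptic regularity. Then sum over `γ`, integral over `x`, unfolding.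
Second part: `∉ GW c R` (with `χ(x) ≠ 0`) implies that the weight is `≥ R^(-1/2)/C`. -/
def AELD_stmt : Prop := ∀ (d : ℕ) (Γ : Type) [Group Γ] [MulAction Γ (V d)] (K : Set (V d)) (k : ℝ) (B : ℕ → ℕ → ℝ) (r0 : ℝ) (χ : V d → ℝ) (ch : ℝ → ℝ) (ζ : ℝ), FdK Γ K → PU Γ r0 χ → CH ch → 0 < ζ → ζ ≤ 1 / 8 → ∃ R0 : ℝ, 1 ≤ R0 ∧ ∀ (R : ℝ) (G : V d → V d →L[ℝ] V d), R0 ≤ R → Cls Γ K k B G →
  ∀ (Λ : Subgroup Γ) (F : Set (V d)) (T : Set Γ), Dm Λ F T → ∀ (φ : V d → ℂ) (E0 : ℝ), FH Λ F φ → ContDiff ℝ 2 φ → |E0| ≤ 1 / 16 →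
    (∫⁻ y in DT d T, ENNReal.ofReal ((Ep G y.2 - E0) ^ 2 / (1 + ‖y.2.2‖ ^ 2) ^ 2) * ‖QF G χ ch ζ R φ y‖ₑ ^ 2 ∂mY Γ d ≤
      ENNReal.ofReal (R ^ (8 * ζ) * (R ^ (-4 : ℝ) * nn G F (fun z => lap G φ z + ((R ^ 2 * (1 + 2 * E0) : ℝ) : ℂ) * φ z) + R ^ (-1 : ℝ) * nn G F φ))) ∧
    ∀ c : ℝ, |E0| + R ^ (-(1 / 4) : ℝ) / 16 ≤ c * R ^ (-(1 / 4) : ℝ) → ∫⁻ y in DT d T \ GW Γ G r0 c R, ‖QF G χ ch ζ R φ y‖ₑ ^ 2 ∂mY Γ d ≤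
      ENNReal.ofReal (R ^ (1 / 2 + 9 * ζ) * (R ^ (-4 : ℝ) * nn G F (fun z => lap G φ z + ((R ^ 2 * (1 + 2 * E0) : ℝ) : ℂ) * φ z) + R ^ (-1 : ℝ) * nn G F φ))

/-! ## A2: beams for one unit of time in the coordinates of one chart -/

/-- **ABMA** the linear data. `Y, P` = complexified derivative of the flow applied to `(Y0, P0)`; the relations `Lag` are preserved by symplectic maps; `|Y x| ≥ |x|/(C L)`, `M` symmetric, `Im M = (Y Y*)⁻¹`; `(det Y)' = tr (Y' Y⁻¹) det Y`. -/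
def ABMA_stmt : Prop := ∀ (d : ℕ) (Γ : Type) [Group Γ] [MulAction Γ (V d)] (K : Set (V d)) (k : ℝ) (B : ℕ → ℕ → ℝ) (r : ℝ), FdK Γ K → ∃ C : ℝ, 1 ≤ C ∧ ∀ (G : V d → V d →L[ℝ] V d) (Φ : ℝ → P d → P d) (p : P d) (t L : ℝ) (Y0 P0 : MC d), OKA Γ K k B G Φ → ‖p.1‖ ≤ r → |Ep G p| ≤ 1 / 4 → |t| ≤ 1 → 1 ≤ L → Lag L Y0 P0 →
  Lag (C * L) (Yf (Φ t) p Y0 P0) (Pf (Φ t) p Y0 P0) ∧ (Yf (Φ t) p Y0 P0).det ≠ 0 ∧ amp Φ p Y0 P0 t ^ 2 * (Yf (Φ t) p Y0 P0).det = Y0.det ∧ ‖amp Φ p Y0 P0 t‖ ≤ C * L ^ C ∧ (Mt Φ p Y0 P0 t).transpose = Mt Φ p Y0 P0 t ∧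
  (∀ i j, ‖Mt Φ p Y0 P0 t i j‖ ≤ C * L ^ 2) ∧ (∀ w : V d, ‖w‖ ^ 2 ≤ C * L ^ 2 * (qf (Mt Φ p Y0 P0 t) w).im)

/-- **ABMP** beams are packets, and satisfy the Schroedinger equation up to `R^(-1/2+)`. Also: the flat packet; the two cut-offs at `t = 0` and for later times; the sup norm. -/
def ABMP_stmt : Prop := ∀ (d : ℕ) (Γ : Type) [Group Γ] [MulAction Γ (V d)] (K : Set (V d)) (k : ℝ) (B : ℕ → ℕ → ℝ) (r : ℝ), FdK Γ K → ∃ C : ℝ, 1 ≤ C ∧ ∀ (ch : ℝ → ℝ) (Kd : ℕ) (e ζ ζ1 ζ2 M : ℝ), CH ch → Rg C e ζ ζ1 → ζ1 ≤ ζ2 → C * ζ2 ≤ 1 → ∃ R0 : ℝ, 1 ≤ R0 ∧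
  ∀ (R t : ℝ) (G : V d → V d →L[ℝ] V d) (Φ : ℝ → P d → P d) (p : P d) (Y0 P0 : MC d), R0 ≤ R → OKA Γ K k B G Φ → ‖p.1‖ ≤ r → |Ep G p| ≤ 1 / 4 → |t| ≤ 1 → Lag (R ^ e) Y0 P0 →
    Pk Kd (C * ζ1) (R ^ (C * ζ1)) R (Φ t p) (bt G Φ ch ζ1 R Y0 P0 p t) ∧ Pk Kd (C * ζ1) (R ^ (-(1 / 2) + C * ζ1)) R (Φ t p) (Eb G Φ ch ζ1 R Y0 P0 p t) ∧ Pk Kd (C * ζ1) (R ^ (3 * (d : ℝ) / 4 + C * ζ1)) R p (pkt G ch ζ R p) ∧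
    Pk Kd (C * ζ2) (R ^ (-M)) R p (fun w => (cR d ch ζ R : ℂ) * bt G Φ ch ζ2 R 1 (Complex.I • 1) p 0 w - pkt G ch ζ R p w) ∧
    Pk Kd (C * ζ2) (R ^ (-M)) R (Φ t p) (fun w => bt G Φ ch ζ2 R Y0 P0 p t w - bt G Φ ch ζ1 R Y0 P0 p t w) ∧ ∀ w, ‖bt G Φ ch ζ1 R Y0 P0 p t w‖ ≤ C * ‖amp Φ p Y0 P0 t‖

/-- **ABMR** regularity (in all variables; no restriction on `p`, `t`) and the equation. -/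
def ABMR_stmt : Prop := ∀ (d : ℕ) (Γ : Type) [Group Γ] [MulAction Γ (V d)] (K : Set (V d)) (k : ℝ) (B : ℕ → ℕ → ℝ) (G : V d → V d →L[ℝ] V d) (Φ : ℝ → P d → P d) (L : ℝ) (Y0 P0 : MC d) (ch : ℝ → ℝ) (ζ1 R : ℝ), OKA Γ K k B G Φ → Lag L Y0 P0 → CH ch → 0 < ζ1 → ζ1 ≤ 1 / 8 → 1 ≤ R →
  (∀ p t, ContDiff ℝ ∞ (bt G Φ ch ζ1 R Y0 P0 p t)) ∧ Continuous (fun x : (P d × ℝ) × V d => bt G Φ ch ζ1 R Y0 P0 x.1.1 x.1.2 x.2) ∧ Continuous (fun x : (P d × ℝ) × V d => fderiv ℝ (bt G Φ ch ζ1 R Y0 P0 x.1.1 x.1.2) x.2) ∧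
  Continuous (fun x : (P d × ℝ) × V d => fderiv ℝ (fderiv ℝ (bt G Φ ch ζ1 R Y0 P0 x.1.1 x.1.2)) x.2) ∧ Continuous (fun x : (P d × ℝ) × V d => lap G (bt G Φ ch ζ1 R Y0 P0 x.1.1 x.1.2) x.2) ∧ Continuous (fun x : (P d × ℝ) × V d => Eb G Φ ch ζ1 R Y0 P0 x.1.1 x.1.2 x.2) ∧
  (∀ (p : P d) (t : ℝ) (w : V d), bt G Φ ch ζ1 R Y0 P0 p t w ≠ 0 ∨ Eb G Φ ch ζ1 R Y0 P0 p t w ≠ 0 → ‖w - (Φ t p).1‖ ≤ R ^ (-(1 / 2) + ζ1)) ∧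
  ∀ (p : P d) (t : ℝ) (w : V d), HasDerivAt (fun s => bt G Φ ch ζ1 R Y0 P0 p s w) (-(Complex.I * Hop G R (bt G Φ ch ζ1 R Y0 P0 p t) w) - Complex.I * Eb G Φ ch ζ1 R Y0 P0 p t w) t

/-- **ABMC** CHANGE OF THE CHART of a beam. `κ ∈ SG r`; the Gaussian packet with the data `(Y, P)` at `q`, seen in the chart `κ`: `w ↦ bm M q (κ⁻¹ w)`, is the Gaussian packet at `lft κ q` with the data `(Y', P')` = the derivative of `lft κ` at `q` applied to `(Y, P)`, times `|det Dκ(x)|^(-1/2)`, up to a packet of size `R^(-1/2+)`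
(Taylor expansion of `κ⁻¹` to second order in the phase: `M' = (Dκ⁻¹)ᵀ M Dκ⁻¹ + ξ·D²κ⁻¹`; third order terms of the phase are `O(R |w|³)`; `dens(κ⁻¹ w)^(-1/2) = dens(w)^(-1/2) |det Dκ⁻¹(w)|^(1/2)`). The cut-off functions are centred at the same points but have different shapes: exponentially small difference. -/
def ABMC_stmt : Prop := ∀ (d : ℕ) (Γ : Type) [Group Γ] [MulAction Γ (V d)] (K : Set (V d)) (k : ℝ) (B : ℕ → ℕ → ℝ) (r : ℝ), FdK Γ K → ∃ C : ℝ, 1 ≤ C ∧ ∀ (ch : ℝ → ℝ) (Kd : ℕ) (e ζ ζ1 : ℝ), CH ch → Rg C e ζ ζ1 → ∃ R0 : ℝ, 1 ≤ R0 ∧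
  ∀ (R : ℝ) (G : V d → V d →L[ℝ] V d) (κ : Γ) (q : P d) (Y0 P0 : MC d), R0 ≤ R → Cls Γ K k B G → κ ∈ SG Γ d r → ‖q.1‖ ≤ r - 1 → ‖q.2‖ ≤ r → Lag (R ^ e) Y0 P0 →
    Lag (C * R ^ e) (Yf (lft κ) q Y0 P0) (Pf (lft κ) q Y0 P0) ∧ (Yf (lft κ) q Y0 P0).det = ((fderiv ℝ (fun y : V d => κ • y) q.1).det : ℂ) * Y0.det ∧
    Pk Kd (C * ζ1) (R ^ (-(1 / 2) + C * ζ1)) R (lft κ q) (fun w => bm G ch ζ1 R (P0 * Y0⁻¹) q (κ⁻¹ • w) -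
      (((Real.sqrt |(fderiv ℝ (fun y : V d => κ • y) q.1).det|)⁻¹ : ℝ) : ℂ) * bm G ch ζ1 R (Pf (lft κ) q Y0 P0 * (Yf (lft κ) q Y0 P0)⁻¹) (lft κ q) w)

end

end Pool.Agent.VD
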