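import Pool.Agent.helper74.VD.SpecA3

/-!
# Project VD (MP_07c750_an), block A4: the unit step and the big step: rows `vd:AXXX`

RULES: as in `SpecA3.lean`, `import Pool.Agent.helper74.VD.SpecA4`. Copies of the VQ rows VUL VUM VUS VTS VTN (helper74/VQ/SpecC.lean).
-/

set_option autoImplicit false

open scoped ContDiff Topology InnerProductSpace ComplexConjugate ENNReal
open MeasureTheory Filter Set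

namespace Pool.Agent.VD

open Pool.Agent.VQ (CH cmZ)

noncomputable section

/-- **Row AULD** (localisation of the kernels; short-medium; from AFOD, AFMD). The two packets are members of the families `fP` (time `t`) and `fG` (time `0`), `η = C ζ1`, `Φ 0 = id`. Size: `R^(3d/4) R^(3d/4) R^(-d/2) = R^d`. (`conj a * b` versus `b * conj a`: the same integral up to conjugation.) -/
def AULD_stmt : Prop := ∀ (d : ℕ) (Γ : Type) [Group Γ] [MulAction Γ (V d)] (K : Set (V d)) (k : ℝ) (B : ℕ → ℕ → ℝ) (r0 : ℝ) (χ : V d → ℝ), FdK Γ K → PU Γ r0 χ → ∃ C : ℝ, 1 ≤ C ∧ ∀ (ch : ℝ → ℝ) (ζ ζ1 M : ℝ), CH ch → 0 < ζ → ζ ≤ ζ1 → C * ζ1 ≤ 1 → ∃ R0 : ℝ, 1 ≤ R0 ∧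
  ∀ (R t : ℝ) (G : V d → V d →L[ℝ] V d) (Φ : ℝ → P d → P d) (y y' : YS Γ d), R0 ≤ R → OKA Γ K k B G Φ → |t| ≤ 1 → y ∈ GW Γ G r0 2 R → y' ∈ GW Γ G r0 2 R →
    ‖∫ z, conj (psi G Φ χ ch ζ ζ1 R t y z) * Gp G χ ch ζ R y' z ∂mv G‖ ≤ R ^ ((d : ℝ) + C * ζ1) ∧ ((∫ z, conj (psi G Φ χ ch ζ ζ1 R t y z) * Gp G χ ch ζ R y' z ∂mv G) ≠ 0 → y.1⁻¹ * y'.1 ∈ SG Γ d C) ∧
    (¬dist (Φ t y.2) (rel y y') < R ^ (-(1 / 2) + C * ζ1) → ‖∫ z, conj (psi G Φ χ ch ζ ζ1 R t y z) * Gp G χ ch ζ R y' z ∂mv G‖ ≤ R ^ (-M))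

/-- **Row AUMD** (measurability, supports, composition; medium; from AULD, ABMR, AQSD, ADMD, ALFX, AVOL, AMVI, ASGF). The integrals are continuous in `(p, p')` for fixed charts (dominated convergence), `St` is a measurable condition. Invariance: `psi (γ y) (γ z) = psi y z`, `rel (γ y) (γ y') = rel y y'`. `usn` by induction: finite range, finite volume of `{y' ∈ GW 2 | y.1⁻¹ y'.1 ∈ S}`, Fubini.
`Op K v` and the transposed operator preserve `FP`. The last claims: associativity and Fubini. -/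
def AUMD_stmt : Prop := ∀ (d : ℕ) (Γ : Type) [Group Γ] [MulAction Γ (V d)] (K : Set (V d)) (k : ℝ) (B : ℕ → ℕ → ℝ) (r0 : ℝ) (χ : V d → ℝ), FdK Γ K → PU Γ r0 χ → ∃ C : ℝ, 1 ≤ C ∧ ∀ (ch : ℝ → ℝ) (A : Par), CH ch → Adm C A → ∃ R0 : ℝ, 1 ≤ R0 ∧
  ∀ (R : ℝ) (G : V d → V d →L[ℝ] V d) (Φ : ℝ → P d → P d), R0 ≤ R → OKA Γ K k B G Φ →
    KY (us (Γ := Γ) G Φ r0 χ ch A R) ∧ (∀ n, KY (usn (Γ := Γ) G Φ r0 χ ch A R n)) ∧ (∀ y y' : YS Γ d, us G Φ r0 χ ch A R y y' ≠ 0 → St G Φ r0 (A.r R) R y y' ∧ y.1⁻¹ * y'.1 ∈ SG Γ d C) ∧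
    (∀ (n : ℕ) (y y' : YS Γ d), usn G Φ r0 χ ch A R n y y' ≠ 0 → RC G Φ r0 (A.r R) R n y y' ∧ y ∈ GW Γ G r0 2 R ∧ y' ∈ GW Γ G r0 2 R ∧ ∃ l : List Γ, l.length = n + 1 ∧ (∀ γ ∈ l, γ ∈ SG Γ d C) ∧ l.prod = y.1⁻¹ * y'.1) ∧
    (∀ (L : YS Γ d → YS Γ d → ℂ) (Λ : Subgroup Γ) (F : Set (V d)) (T : Set Γ) (v : YS Γ d → ℂ), Dm Λ F T → KY L → (∀ y y', L y y' ≠ 0 → y ∈ GW Γ G r0 2 R ∧ y' ∈ GW Γ G r0 2 R) → FP Λ T v → FP Λ T (Op L v) ∧ FP Λ T (fun q => ∫ x, v x * conj (L x q) ∂mY Γ d)) ∧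
    (∀ (n : ℕ) (y y' : YS Γ d), usn G Φ r0 χ ch A R (n + 1) y y' = cmZ (mY Γ d) (usn G Φ r0 χ ch A R n) (us G Φ r0 χ ch A R) y y') ∧
    ∀ (Λ : Subgroup Γ) (F : Set (V d)) (T : Set Γ) (v : YS Γ d → ℂ), Dm Λ F T → FP Λ T v → ∀ (n : ℕ) (y : YS Γ d), Op (usn G Φ r0 χ ch A R (n + 1)) v y = Op (us G Φ r0 χ ch A R) (Op (usn G Φ r0 χ ch A R n) v) y

/-- **Row AUSD** (Schur bounds; short-medium; from AULD, AVOL, AUMD, ASGF). `‖us‖ ≤ R^(d + C z1)`, the neighbours have volume `≤ C r^(2d) = C R^(-d + 2 d z2)` (for fixed `y'`: `dist (Φ 1 y.2) (rel y y') < r` with `y` variable: apply `lft (y'.1⁻¹ y.1)`, which is Lipschitz on bounded sets with finitely many possible group elements, ASGF). -/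
def AUSD_stmt : Prop := ∀ (d : ℕ) (Γ : Type) [Group Γ] [MulAction Γ (V d)] (K : Set (V d)) (k : ℝ) (B : ℕ → ℕ → ℝ) (r0 : ℝ) (χ : V d → ℝ), FdK Γ K → PU Γ r0 χ → ∃ C : ℝ, 1 ≤ C ∧ ∀ (ch : ℝ → ℝ) (A : Par), CH ch → Adm C A → ∃ R0 : ℝ, 1 ≤ R0 ∧
  ∀ (R : ℝ) (G : V d → V d →L[ℝ] V d) (Φ : ℝ → P d → P d), R0 ≤ R → OKA Γ K k B G Φ →
    (∀ y y' : YS Γ d, ‖us G Φ r0 χ ch A R y y'‖ ≤ R ^ ((d : ℝ) + C * A.z1)) ∧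
    (∀ y : YS Γ d, ∫⁻ y', ‖us G Φ r0 χ ch A R y y'‖ₑ ∂mY Γ d ≤ ENNReal.ofReal (R ^ (C * A.z2)) ∧ ∫⁻ y', ‖us G Φ r0 χ ch A R y y'‖ₑ ^ 2 ∂mY Γ d ≤ ENNReal.ofReal (R ^ ((d : ℝ) + C * A.z2))) ∧
    ∀ y' : YS Γ d, ∫⁻ y, ‖us G Φ r0 χ ch A R y y'‖ₑ ∂mY Γ d ≤ ENNReal.ofReal (R ^ (C * A.z2)) ∧ ∫⁻ y, ‖us G Φ r0 χ ch A R y y'‖ₑ ^ 2 ∂mY Γ d ≤ ENNReal.ofReal (R ^ ((d : ℝ) + C * A.z2))

/-- **Row ATSD** (THE UNIT STEP; medium; from AULD, ASAD, AQAD, AUMD, AVOL, AFMD, AFRD, AQSD, ADMD, VQ.VSH). For `y ∈ GW 2`: `Op us v y = aF fP (Qs v) y - ` (the part of the kernel with `dist ≥ r`), which is `≤ R^(-M)` and has `y.1⁻¹ y'.1 ∈ SG`, so its operator norm is `≤ C R^(-M)` (Schur test on the quotient, AVOL second part). Contraction: ASAD second part for `φ = Qs v` and AQAD.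
Third and fourth part: the transposed operator, `∫ v(x) conj (us x q) dx = QF (sF fP v)(q)` up to the same kernel; contraction by ASAD first part and AQAD. -/
def ATSD_stmt : Prop := ∀ (d : ℕ) (Γ : Type) [Group Γ] [MulAction Γ (V d)] (K : Set (V d)) (k : ℝ) (B : ℕ → ℕ → ℝ) (r0 : ℝ) (χ : V d → ℝ), FdK Γ K → PU Γ r0 χ → ∃ C : ℝ, 1 ≤ C ∧ ∀ (ch : ℝ → ℝ) (A : Par), CH ch → Adm C A → ∃ R0 : ℝ, 1 ≤ R0 ∧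
  ∀ (R : ℝ) (G : V d → V d →L[ℝ] V d) (Φ : ℝ → P d → P d), R0 ≤ R → OKA Γ K k B G Φ → ∀ (Λ : Subgroup Γ) (F : Set (V d)) (T : Set Γ) (v : YS Γ d → ℂ), Dm Λ F T → FP Λ T v →
    nP G r0 T 2 R (fun y => Op (us G Φ r0 χ ch A R) v y - aF G r0 R (fP G Φ χ ch A.z A.z1 R 1) (Qs G r0 χ ch A.z R v) y) ≤ R ^ (-8 : ℝ) * nP G r0 T 2 R v ∧
    nP G r0 T 2 R (Op (us G Φ r0 χ ch A R) v) ≤ (1 + R ^ (-(1 / 5) : ℝ)) ^ 2 * nP G r0 T 2 R v ∧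
    nP G r0 T 2 R (fun q => (∫ x, v x * conj (us G Φ r0 χ ch A R x q) ∂mY Γ d) - QF G χ ch A.z R (sF G r0 R (fP G Φ χ ch A.z A.z1 R 1) v) q) ≤ R ^ (-8 : ℝ) * nP G r0 T 2 R v ∧
    nP G r0 T 2 R (fun q => ∫ x, v x * conj (us G Φ r0 χ ch A R x q) ∂mY Γ d) ≤ (1 + R ^ (-(1 / 5) : ℝ)) ^ 2 * nP G r0 T 2 R v

/-- **Row ATND** (the big step is a contraction; short; from ATSD, AUMD, ALFX). Induction on `n ≤ A.n R`; `(1 + R^(-1/5))^(e2 log R + 1) ≤ 1 + R^(-1/6)`. The phase has modulus `1`, is continuous in `p` and does not depend on the chart. -/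
def ATND_stmt : Prop := ∀ (d : ℕ) (Γ : Type) [Group Γ] [MulAction Γ (V d)] (K : Set (V d)) (k : ℝ) (B : ℕ → ℕ → ℝ) (r0 : ℝ) (χ : V d → ℝ), FdK Γ K → PU Γ r0 χ → ∃ C : ℝ, 1 ≤ C ∧ ∀ (ch : ℝ → ℝ) (A : Par), CH ch → Adm C A → ∃ R0 : ℝ, 1 ≤ R0 ∧
  ∀ (R : ℝ) (G : V d → V d →L[ℝ] V d) (Φ : ℝ → P d → P d), R0 ≤ R → OKA Γ K k B G Φ →
    (∀ (Λ : Subgroup Γ) (F : Set (V d)) (T : Set Γ) (v : YS Γ d → ℂ) (n : ℕ), Dm Λ F T → FP Λ T v → n ≤ A.n R → nP G r0 T 2 R (Op (usn G Φ r0 χ ch A R n) v) ≤ (1 + R ^ (-(1 / 6) : ℝ)) ^ 2 * nP G r0 T 2 R v) ∧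
    ∀ f : V d → ℝ, Continuous f → (∀ t : ℝ, Continuous (thP Φ f R t)) ∧ KY (KB (Γ := Γ) G Φ r0 χ ch A R f) ∧
      ∀ (Λ : Subgroup Γ) (F : Set (V d)) (T : Set Γ) (v : YS Γ d → ℂ), Dm Λ F T → FP Λ T v → nP G r0 T 2 R (Op (KB G Φ r0 χ ch A R f) v) ≤ (1 + R ^ (-(1 / 6) : ℝ)) ^ 2 * nP G r0 T 2 R v

end

end Pool.Agent.VD
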