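import Pool.Agent.helper47.VD.SpecA1b

/-!
# Project VD, row AQSA: pointwise facts on the packets
-/

set_option autoImplicit false

open scoped ContDiff Topology InnerProductSpace ComplexConjugate ENNReal
open MeasureTheory Filter Set

namespace Pool.Agent.VD

open Pool.Agent.VQ (CH)

theorem AQSA_proof (hABRD : ABRD_stmt) (hAMVI : AMVI_stmt) (hAHLD : AHLD_stmt) (hAMYS : AMYS_stmt) : AQSA_stmt := by
  intro d Γ _ _ K k B r0 χ ch ζ hK hχ hch hz hz8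
  obtain ⟨R1, hR1, a1⟩ := hABRD d ch ζ hch hz hz8
  obtain ⟨C, hC, a2⟩ := hAHLD d Γ K k B r0 0
  refine ⟨max R1 (C ^ (1 / ζ)), le_max_of_le_left hR1, ?_⟩
  intro R G hR hG
  simp only [max_le_iff] at hR
  obtain ⟨g1, g2⟩ := hR
  obtain ⟨b1, b2, b3, b4, b5, b6, b7, b8, b9, b10, b11⟩ := a1 R g1
  have hR1' : 1 ≤ R := hR1.trans g1
  have hR0 : 0 < R := by linarith
  have hC0 : 0 < C := by linarith
  obtain ⟨m1, m2, m3, -⟩ := hAMVI d Γ K k B G hK hG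
  have hCR : C ≤ R ^ ζ := by
    have h := Real.rpow_le_rpow (by positivity) g2 hz.le
    rw [← Real.rpow_mul hC0.le, one_div, inv_mul_cancel₀ hz.ne', Real.rpow_one] at h
    exact h
  have hcont : ∀ γ : Γ, Continuous fun x : P d × V d => Gp G χ ch ζ R ((γ, x.1) : YS Γ d) x.2 := by
    intro γ
    have hw : Continuous fun x : P d × V d => γ⁻¹ • x.2 := (hK.smooth γ⁻¹).continuous.comp continuous_snd
    have h1 : Continuous fun x : P d × V d => b0 ch ζ R (γ⁻¹ • x.2 - x.1.1) := b1.continuous.comp (hw.sub (continuous_fst.comp continuous_fst))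
    have h2 : Continuous fun x : P d × V d => Real.sqrt (dens G (γ⁻¹ • x.2)) := (m2.continuous.comp hw).sqrt
    have h3 : ∀ x : P d × V d, Real.sqrt (dens G (γ⁻¹ • x.2)) ≠ 0 := fun x => (Real.sqrt_pos.2 (m3 _)).ne'
    have h4 : Continuous fun x : P d × V d => R * ⟪x.1.2, γ⁻¹ • x.2 - x.1.1⟫_ℝ :=
      continuous_const.mul ((continuous_snd.comp continuous_fst).inner (hw.sub (continuous_fst.comp continuous_fst)))
    unfold Gp pkt
    refine (Complex.continuous_ofReal.comp (hχ.smooth.continuous.comp (continuous_fst.comp continuous_fst))).mul ?_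
    refine (Complex.continuous_ofReal.comp ((continuous_const.mul h1).div h2 h3)).mul ?_
    exact Complex.continuous_exp.comp ((Complex.continuous_ofReal.comp h4).mul continuous_const)
  have hsupp : ∀ (y : YS Γ d) (z : V d), Gp G χ ch ζ R y z ≠ 0 → ‖y.2.1‖ ≤ r0 - 1 ∧ ‖y.1⁻¹ • z - y.2.1‖ ≤ R ^ (-(1 / 2) + ζ) ∧ ‖y.1⁻¹ • z‖ ≤ r0 := by
    intro y z h
    unfold Gp pkt at h
    have h1 : χ y.2.1 ≠ 0 := by
      intro h0
      rw [h0] at h
      simp at h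
    have h2 : b0 ch ζ R (y.1⁻¹ • z - y.2.1) ≠ 0 := by
      intro h0
      rw [h0] at h
      simp at h
    have h3 := hχ.supp _ h1
    have h4 := b2 _ h2
    refine ⟨h3, h4, ?_⟩
    have h5 : ‖y.1⁻¹ • z‖ ≤ ‖y.1⁻¹ • z - y.2.1‖ + ‖y.2.1‖ := by
      have := norm_add_le (y.1⁻¹ • z - y.2.1) y.2.1
      rwa [sub_add_cancel] at this
    linarith
  refine ⟨hcont, hsupp, ?_, ?_, ?_, b4⟩
  · intro y z
    by_cases h0 : Gp G χ ch ζ R y z = 0
    · rw [h0, norm_zero]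
      positivity
    · obtain ⟨h1, h2, h3⟩ := hsupp y z h0
      obtain ⟨-, -, -, -, a3⟩ := a2 G hK hG
      obtain ⟨h4, -⟩ := a3 _ h3
      have h5 : (Real.sqrt (dens G (y.1⁻¹ • z)))⁻¹ ≤ C := by
        have e1 : Real.sqrt (C⁻¹) ≤ Real.sqrt (dens G (y.1⁻¹ • z)) := Real.sqrt_le_sqrt h4
        have e2 : C⁻¹ ≤ Real.sqrt (C⁻¹) := by
          have h0 : 0 ≤ C⁻¹ := inv_nonneg.2 hC0.le
          have h1 : C⁻¹ ≤ 1 := inv_le_one_of_one_le₀ hC
          refine Real.le_sqrt_of_sq_le ?_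
          nlinarith
        have e3 : 0 < C⁻¹ := inv_pos.2 hC0
        have e4 := inv_anti₀ e3 (e2.trans e1)
        rwa [inv_inv] at e4
      unfold Gp pkt
      rw [norm_mul, norm_mul, Complex.norm_exp_ofReal_mul_I, mul_one, Complex.norm_real, Complex.norm_real, Real.norm_eq_abs, Real.norm_eq_abs, abs_of_nonneg (hχ.bd _).1]
      have f1 : b0 ch ζ R (y.1⁻¹ • z - y.2.1) ≤ 1 := by
        refine (b3 _).2.trans ?_
        rw [Real.exp_le_one_iff]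
        have : 0 ≤ R * ‖y.1⁻¹ • z - y.2.1‖ ^ 2 / 2 := by positivity
        linarith
      have f2 : 0 ≤ cR d ch ζ R * b0 ch ζ R (y.1⁻¹ • z - y.2.1) / Real.sqrt (dens G (y.1⁻¹ • z)) :=
        div_nonneg (mul_nonneg b9.le (b3 _).1) (Real.sqrt_nonneg _)
      rw [abs_of_nonneg f2, div_eq_mul_inv]
      have f3 : cR d ch ζ R * b0 ch ζ R (y.1⁻¹ • z - y.2.1) ≤ R ^ (3 * (d : ℝ) / 4) * 1 := mul_le_mul b10 f1 (b3 _).1 (by positivity)
      have f4 : cR d ch ζ R * b0 ch ζ R (y.1⁻¹ • z - y.2.1) * (Real.sqrt (dens G (y.1⁻¹ • z)))⁻¹ ≤ (R ^ (3 * (d : ℝ) / 4) * 1) * R ^ ζ :=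
        mul_le_mul f3 (h5.trans hCR) (inv_nonneg.2 (Real.sqrt_nonneg _)) (by positivity)
      rw [Real.rpow_add hR0]
      have f5 : 0 ≤ cR d ch ζ R * b0 ch ζ R (y.1⁻¹ • z - y.2.1) * (Real.sqrt (dens G (y.1⁻¹ • z)))⁻¹ := by
        rwa [← div_eq_mul_inv]
      calc χ y.2.1 * (cR d ch ζ R * b0 ch ζ R (y.1⁻¹ • z - y.2.1) * (Real.sqrt (dens G (y.1⁻¹ • z)))⁻¹) ≤ 1 * ((R ^ (3 * (d : ℝ) / 4) * 1) * R ^ ζ) :=
            mul_le_mul (hχ.bd _).2 f4 f5 (by norm_num)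
        _ = R ^ (3 * (d : ℝ) / 4) * R ^ ζ := by ring
  · intro γ y z
    have e : (γ • y).1⁻¹ • (γ • z) = y.1⁻¹ • z := by
      change (γ * y.1)⁻¹ • (γ • z) = y.1⁻¹ • z
      rw [mul_inv_rev, smul_smul, mul_assoc, inv_mul_cancel, mul_one]
    unfold Gp
    rw [e]
    rfl
  · have := m1
    exact (hAMYS d Γ).2.1 ℂ (fun y z => Gp G χ ch ζ R y z) (fun γ => (hcont γ).measurable)

end Pool.Agent.VD
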