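import Pool.Agent.helper47.VD.SpecA1b

/-!
# Project VD, row AQSD: assembly
-/

set_option autoImplicit false

open scoped ContDiff Topology InnerProductSpace ComplexConjugate ENNReal
open MeasureTheory Filter Set

namespace Pool.Agent.VD

open Pool.Agent.VQ (CH)

theorem AQSD_proof (h1 : AQSA_stmt) (h2 : AQSN_stmt) (h3 : AQSB_stmt) (h4 : AQSC_stmt) (h5 : AQSE_stmt) : AQSD_stmt := by
  intro d Γ _ _ K k B r0 χ ch ζ hK hχ hch hz hz8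
  obtain ⟨R1, hR1, a1⟩ := h1 d Γ K k B r0 χ ch ζ hK hχ hch hz hz8
  obtain ⟨R2, hR2, a2⟩ := h2 d Γ K k B r0 χ ch ζ hK hχ hch hz hz8
  obtain ⟨R3, hR3, a3⟩ := h3 d Γ K k B r0 χ ch ζ hK hχ hch hz hz8
  obtain ⟨R4, hR4, a4⟩ := h4 d Γ K k B r0 χ ch ζ hK hχ hch hz hz8
  obtain ⟨R5, hR5, a5⟩ := h5 d Γ K k B r0 χ ch ζ hK hχ hch hz hz8
  refine ⟨max R1 (max R2 (max R3 (max R4 R5))), le_max_of_le_left hR1, ?_⟩
  intro R G hR hG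
  simp only [max_le_iff] at hR
  obtain ⟨g1, g2, g3, g4, g5⟩ := hR
  obtain ⟨b1, b2, b3, b4, -, -⟩ := a1 R G g1 hG
  obtain ⟨-, c2, c3⟩ := a2 R G g2 hG
  refine ⟨b1, b2, b3, b4, c2, c3, ?_⟩
  intro Λ F T hD
  refine ⟨fun φ hφ => a3 R G g3 hG Λ F T hD φ hφ, fun v hv => (a4 R G g4 hG Λ F T hD v hv).1, ?_⟩
  intro φ v hφ hv
  exact a5 R G g5 hG Λ F T hD φ v hφ hv

end Pool.Agent.VD
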