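import Pool.Agent.helper80.VD.Defs
import Pool.Agent.helper11.VQ.Spec3a
import Pool.Agent.helper74.VQ.Defs

/-!
# Project VD (MP_07c750_an, quantum unique ergodicity in every dimension): QUANTUM DEFINITIONS (block A)

`M = Γ \ ℝ^d` with the metric `G` (helper80's `Defs.lean`; class `Cls Γ K k B G`, flow `IsFlow G Φ`). FUNCTION LANGUAGE: functions on `M` are `Γ`-invariant functions on `V d`, the measure is `mv G = dens G dx`, the operator `Hop G R = (2R)⁻¹ (-lap G - R²)`; its symbol is `R (Ham - 1/2)`, so that the energy shell is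
`Ham = 1/2`, `|ξ| = 1`, and `i ∂_t ψ = Hop ψ`.

INDEX SET of the packets: `YS Γ d = Γ × P d` with the action on the left factor; the packet of `y = (γ, (x, ξ))` is `z ↦ χ(x) G_(x,ξ)(γ⁻¹ z)`, `G_(x,ξ)(w) = c_R b0(w - x) dens(w)^(-1/2) exp (i R ξ·(w - x))` a flat wave packet in the coordinates of `V d`, `χ` a partition of unity: `∑_γ χ(γ⁻¹ x)² = 1`.
STEPS: unit time; a big step = `A.n R + 1` unit steps, `A.n R = ⌊e2 log R⌋`, big time `A.tu R = A.n R + 1`.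

TWO SETTINGS (`Dm Λ F T`): `Λ = ⊤`, `F` a fundamental domain, `T = {1}` (the manifold `M`); `Λ = ⊥`, `F = univ`, `T = univ` (the universal covering). `Λ` acts on functions, `Γ` always indexes the charts.

RULES. Row `vd:XXX`: file `Pool/Agent/<seat>/VD/XXX.lean`, `import` the spec of the row, `set_option autoImplicit false`, namespace `Pool.Agent.VD`, auxiliary lemmas prefixed `XXX_`, theorem `XXX_proof (h..) : XXX_stmt` (rows listed in `from` may be used as hypotheses `(h : YYY_stmt)`).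
No `convert`, `congr!`, `native_decide`, no double quotes, no `private`.
-/

set_option autoImplicit false

open scoped ContDiff Topology InnerProductSpace ComplexConjugate
open MeasureTheory Filter Set

namespace Pool.Agent.VD

open Pool.Agent.VQ (CH KZ PS perZ cmZ)

noncomputable section

variable {d : ℕ}

/-! ## The index set -/

/-- the index set of the packets: charts `γ` and points of phase space -/
def YS (Γ : Type) (d : ℕ) : Type := Γ × P d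

/-- `Γ` is discrete -/
instance instMSYS (Γ : Type) : MeasurableSpace (YS Γ d) := @Prod.instMeasurableSpace Γ (P d) ⊤ inferInstance

/-- `γ (κ, p) = (γ κ, p)` -/
instance instActYS (Γ : Type) [Group Γ] : MulAction Γ (YS Γ d) where
  smul γ y := (γ * y.1, y.2)
  one_smul y := Prod.ext (one_mul y.1) rfl
  mul_smul a b y := Prod.ext (mul_assoc a b y.1) rfl

/-- counting measure times Lebesgue measure -/
def mY (Γ : Type) (d : ℕ) : Measure (YS Γ d) := @Measure.prod Γ (P d) ⊤ inferInstance (@Measure.count Γ ⊤) volume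

/-- `|ξ|²/2 - 1/2` -/
def Ep (G : V d → V d →L[ℝ] V d) (p : P d) : ℝ := Ham G p - 1 / 2

/-- the window `|Ep| ≤ c R^(-1/4)`, base points in the ball of radius `r0` -/
def GW (Γ : Type) (G : V d → V d →L[ℝ] V d) (r0 c R : ℝ) : Set (YS Γ d) := {y | ‖y.2.1‖ ≤ r0 ∧ |Ep G y.2| ≤ c * R ^ (-(1 / 4) : ℝ)}

/-- the measure on the window -/
def mW (Γ : Type) (G : V d → V d →L[ℝ] V d) (r0 R : ℝ) : Measure (YS Γ d) := (mY Γ d).restrict (GW Γ G r0 2 R)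

/-- the indices with charts in `T` (`T = {1}`: fundamental domain) -/
def DT {Γ : Type} (d : ℕ) (T : Set Γ) : Set (YS Γ d) := {y | y.1 ∈ T}

/-- elements of `Γ` which move a point of the ball of radius `r` into this ball -/
def SG (Γ : Type) [Group Γ] (d : ℕ) [MulAction Γ (V d)] (r : ℝ) : Set Γ := {γ | ∃ x : V d, ‖x‖ ≤ r ∧ ‖γ • x‖ ≤ r}

/-- bounded measurable invariant kernels; the relative chart is in a finite set -/
structure KY {Γ : Type} [Group Γ] (K : YS Γ d → YS Γ d → ℂ) : Prop where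
  meas : Measurable (Function.uncurry K)
  bdd : ∃ b : ℝ, ∀ y y', ‖K y y'‖ ≤ b
  inv : ∀ (γ : Γ) (y y' : YS Γ d), K (γ • y) (γ • y') = K y y'
  range : ∃ S : Finset Γ, ∀ y y', K y y' ≠ 0 → y.1⁻¹ * y'.1 ∈ S

/-! ## Functions on `M` -/

/-- the Riemannian volume -/
def mv (G : V d → V d →L[ℝ] V d) : Measure (V d) := volume.withDensity fun x => ENNReal.ofReal (dens G x)

/-- fundamental domains -/
structure FD (Γ : Type) [Group Γ] [MulAction Γ (V d)] (F : Set (V d)) : Prop where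
  meas : MeasurableSet F
  uniq : ∀ x : V d, ∃! γ : Γ, γ • x ∈ F
  bdd : ∃ b : ℝ, ∀ x ∈ F, ‖x‖ ≤ b

/-- the two settings -/
def Dm {Γ : Type} [Group Γ] [MulAction Γ (V d)] (Λ : Subgroup Γ) (F : Set (V d)) (T : Set Γ) : Prop :=
  (Λ = ⊤ ∧ FD Γ F ∧ T = {1}) ∨ (Λ = ⊥ ∧ F = univ ∧ T = univ)

/-- continuous `Λ`-invariant functions; the support is bounded modulo `Λ` -/
structure FH {Γ : Type} [Group Γ] [MulAction Γ (V d)] (Λ : Subgroup Γ) (F : Set (V d)) (φ : V d → ℂ) : Prop where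
  cont : Continuous φ
  inv : ∀ γ ∈ Λ, ∀ z : V d, φ (γ • z) = φ z
  supp : ∃ b : ℝ, ∀ z ∈ F, φ z ≠ 0 → ‖z‖ ≤ b

/-- bounded measurable `Λ`-invariant functions of the index; the support is finite modulo `Λ` in the chart variable -/
structure FP {Γ : Type} [Group Γ] (Λ : Subgroup Γ) (T : Set Γ) (v : YS Γ d → ℂ) : Prop where
  meas : Measurable v
  bdd : ∃ b : ℝ, ∀ y, ‖v y‖ ≤ b
  inv : ∀ γ ∈ Λ, ∀ y : YS Γ d, v (γ • y) = v y
  supp : ∃ S : Finset Γ, ∀ y : YS Γ d, y.1 ∈ T → v y ≠ 0 → y.1 ∈ S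

/-- norm squared of functions -/
def nn (G : V d → V d →L[ℝ] V d) (F : Set (V d)) (φ : V d → ℂ) : ℝ := ∫ z in F, ‖φ z‖ ^ 2 ∂mv G

/-- norm squared on the window `|Ep| ≤ c R^(-1/4)` -/
def nP {Γ : Type} (G : V d → V d →L[ℝ] V d) (r0 : ℝ) (T : Set Γ) (c R : ℝ) (v : YS Γ d → ℂ) : ℝ := ∫ y in DT d T ∩ GW Γ G r0 c R, ‖v y‖ ^ 2 ∂mY Γ d

/-- the operator `(2R)⁻¹ (-lap - R²)` -/
def Hop (G : V d → V d →L[ℝ] V d) (R : ℝ) (φ : V d → ℂ) (z : V d) : ℂ := (((2 * R)⁻¹ : ℝ) : ℂ) * (-lap G φ z - ((R ^ 2 : ℝ) : ℂ) * φ z)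

/-! ## Packets -/

/-- partitions of unity: `∑_γ χ(γ⁻¹ x)² = 1`, `χ` supported in the ball of radius `r0 - 1` -/
structure PU (Γ : Type) [Group Γ] [MulAction Γ (V d)] (r0 : ℝ) (χ : V d → ℝ) : Prop where
  smooth : ContDiff ℝ ∞ χ
  one : 1 ≤ r0
  supp : ∀ x, χ x ≠ 0 → ‖x‖ ≤ r0 - 1
  bd : ∀ x, 0 ≤ χ x ∧ χ x ≤ 1
  sum : ∀ x : V d, ∑ᶠ γ : Γ, χ (γ⁻¹ • x) ^ 2 = 1
  cover : ∀ x : V d, ∃ γ : Γ, ‖γ • x‖ ≤ r0 - 1

/-- the truncated Gaussian -/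
def b0 (ch : ℝ → ℝ) (ζ R : ℝ) (v : V d) : ℝ := Real.exp (-(R * ‖v‖ ^ 2 / 2)) * ch (R ^ (1 - 2 * ζ) * ‖v‖ ^ 2)

/-- the normalisation -/
def bR (d : ℕ) (ch : ℝ → ℝ) (ζ R : ℝ) : ℝ := ∫ v : V d, b0 ch ζ R v ^ 2

/-- the constant `c_R`: `c_R² ∫ b0² = (R/2π)^d` -/
def cR (d : ℕ) (ch : ℝ → ℝ) (ζ R : ℝ) : ℝ := Real.sqrt ((R / (2 * Real.pi)) ^ d / bR d ch ζ R)

/-- the flat packet at `p = (x, ξ)` -/
def pkt (G : V d → V d →L[ℝ] V d) (ch : ℝ → ℝ) (ζ R : ℝ) (p : P d) (w : V d) : ℂ :=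
  ((cR d ch ζ R * b0 ch ζ R (w - p.1) / Real.sqrt (dens G w) : ℝ) : ℂ) * Complex.exp (((R * ⟪p.2, w - p.1⟫_ℝ : ℝ) : ℂ) * Complex.I)

/-- the packet of the index `y` -/
def Gp {Γ : Type} [Group Γ] [MulAction Γ (V d)] (G : V d → V d →L[ℝ] V d) (χ : V d → ℝ) (ch : ℝ → ℝ) (ζ R : ℝ) (y : YS Γ d) (z : V d) : ℂ :=
  (χ y.2.1 : ℂ) * pkt G ch ζ R y.2 (y.1⁻¹ • z)

/-- the packet coefficients -/
def QF {Γ : Type} [Group Γ] [MulAction Γ (V d)] (G : V d → V d →L[ℝ] V d) (χ : V d → ℝ) (ch : ℝ → ℝ) (ζ R : ℝ) (φ : V d → ℂ) (y : YS Γ d) : ℂ :=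
  ∫ z, φ z * conj (Gp G χ ch ζ R y z) ∂mv G

/-- the function with the packet coefficients `v` in the window `|Ep| ≤ 2 R^(-1/4)` -/
def Qs {Γ : Type} [Group Γ] [MulAction Γ (V d)] (G : V d → V d →L[ℝ] V d) (r0 : ℝ) (χ : V d → ℝ) (ch : ℝ → ℝ) (ζ R : ℝ) (v : YS Γ d → ℂ) (z : V d) : ℂ :=
  ∫ y, v y * Gp G χ ch ζ R y z ∂mW Γ G r0 R

/-! ## Beams -/

/-- `d × d` complex matrices -/
abbrev MC (d : ℕ) : Type := Matrix (Fin d) (Fin d) ℂ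

/-- `(∂x'/∂x) Y0 + (∂x'/∂ξ) P0` for a map `f = (x', ξ')` of phase space -/
def Yf (f : P d → P d) (p : P d) (Y0 P0 : MC d) : MC d :=
  (Matrix.of fun i j => ((((fderiv ℝ f p (EuclideanSpace.single j 1, 0)).1 i : ℝ)) : ℂ)) * Y0 + (Matrix.of fun i j => ((((fderiv ℝ f p (0, EuclideanSpace.single j 1)).1 i : ℝ)) : ℂ)) * P0

/-- `(∂ξ'/∂x) Y0 + (∂ξ'/∂ξ) P0` -/
def Pf (f : P d → P d) (p : P d) (Y0 P0 : MC d) : MC d :=
  (Matrix.of fun i j => ((((fderiv ℝ f p (EuclideanSpace.single j 1, 0)).2 i : ℝ)) : ℂ)) * Y0 + (Matrix.of fun i j => ((((fderiv ℝ f p (0, EuclideanSpace.single j 1)).2 i : ℝ)) : ℂ)) * P0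

/-- the quadratic form of a matrix -/
def qf (M : MC d) (w : V d) : ℂ := ∑ i, ∑ j, M i j * ((w i * w j : ℝ) : ℂ)

/-- the matrix `M = P Y⁻¹` at the time `t` of the beam with the initial data `p, Y0, P0` -/
def Mt (Φ : ℝ → P d → P d) (p : P d) (Y0 P0 : MC d) (t : ℝ) : MC d := Pf (Φ t) p Y0 P0 * (Yf (Φ t) p Y0 P0)⁻¹

/-- the amplitude `exp (-½ ∫ tr (Y' Y⁻¹))`: `amp² det Y(t) = det Y(0)` -/
def amp (Φ : ℝ → P d → P d) (p : P d) (Y0 P0 : MC d) (t : ℝ) : ℂ :=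
  Complex.exp (-(1 / 2) * ∫ s in (0 : ℝ)..t, Matrix.trace ((Matrix.of fun i j => deriv (fun r => Yf (Φ r) p Y0 P0 i j) s) * (Yf (Φ s) p Y0 P0)⁻¹))

/-- Gaussian packets `ch exp (i R (ξ·(w-x) + ½ ⟨M (w-x), w-x⟩)) dens(w)^(-1/2)` at `q = (x, ξ)` -/
def bm (G : V d → V d →L[ℝ] V d) (ch : ℝ → ℝ) (ζ1 R : ℝ) (M : MC d) (q : P d) (w : V d) : ℂ :=
  ((ch (R ^ (1 - 2 * ζ1) * ‖w - q.1‖ ^ 2) / Real.sqrt (dens G w) : ℝ) : ℂ) * Complex.exp (Complex.I * (R : ℂ) * (((⟪q.2, w - q.1⟫_ℝ : ℝ) : ℂ) + qf M (w - q.1) / 2))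

/-- the beam with the initial data `p, Y0, P0` at the time `t` in the coordinates of one chart -/
def bt (G : V d → V d →L[ℝ] V d) (Φ : ℝ → P d → P d) (ch : ℝ → ℝ) (ζ1 R : ℝ) (Y0 P0 : MC d) (p : P d) (t : ℝ) (w : V d) : ℂ :=
  amp Φ p Y0 P0 t * Complex.exp (((R * ((Ham G p + 1 / 2) * t) : ℝ) : ℂ) * Complex.I) * bm G ch ζ1 R (Mt Φ p Y0 P0 t) (Φ t p) w

/-- the error `i ∂_t - Hop` of the beam -/
def Eb (G : V d → V d →L[ℝ] V d) (Φ : ℝ → P d → P d) (ch : ℝ → ℝ) (ζ1 R : ℝ) (Y0 P0 : MC d) (p : P d) (t : ℝ) (w : V d) : ℂ :=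
  Complex.I * deriv (fun s => bt G Φ ch ζ1 R Y0 P0 p s w) t - Hop G R (bt G Φ ch ζ1 R Y0 P0 p t) w

/-- admissible initial data (`Y0 = 1`, `P0 = i` with `L = 1`) -/
structure Lag (L : ℝ) (Y0 P0 : MC d) : Prop where
  sym : Y0.transpose * P0 = P0.transpose * Y0
  pos : Y0.conjTranspose * P0 - P0.conjTranspose * Y0 = (2 * Complex.I) • (1 : MC d)
  bdY : ∀ i j, ‖Y0 i j‖ ≤ L
  bdP : ∀ i j, ‖P0 i j‖ ≤ L

/-- packets at `q = (x, ξ)`: `f w = exp (i R ξ·(w - x)) A(w - x)`, `A` smooth, supported in `‖v‖ ≤ R^(-1/2+η)`, `‖D^k A‖ ≤ m R^((1/2+η) k)` for `k ≤ K` -/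
def Pk (K : ℕ) (η m R : ℝ) (q : P d) (f : V d → ℂ) : Prop := ∃ A : V d → ℂ, ContDiff ℝ ∞ A ∧ (∀ v, A v ≠ 0 → ‖v‖ ≤ R ^ (-(1 / 2) + η)) ∧
  (∀ k ≤ K, ∀ v, ‖iteratedFDeriv ℝ k A v‖ ≤ m * (R ^ (1 / 2 + η)) ^ k) ∧ ∀ w, f w = Complex.exp (((R * ⟪q.2, w - q.1⟫_ℝ : ℝ) : ℂ) * Complex.I) * A (w - q.1)

/-- the condition on the exponents: data of size `R^e`, packets `ζ`, beams `ζ1` -/
def Rg (C e ζ ζ1 : ℝ) : Prop := 0 ≤ e ∧ 0 < ζ ∧ ζ ≤ ζ1 ∧ C * e ≤ ζ1 ∧ C * ζ1 ≤ 1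

/-- the evolved packet -/
def psi {Γ : Type} [Group Γ] [MulAction Γ (V d)] (G : V d → V d →L[ℝ] V d) (Φ : ℝ → P d → P d) (χ : V d → ℝ) (ch : ℝ → ℝ) (ζ ζ1 R t : ℝ) (y : YS Γ d) (z : V d) : ℂ :=
  ((χ y.2.1 * cR d ch ζ R : ℝ) : ℂ) * bt G Φ ch ζ1 R 1 (Complex.I • 1) y.2 t (y.1⁻¹ • z)

/-! ## Kernels -/

/-- parameters: big time `⌊e2 log R⌋ + 1`, radius of the jumps `R^(-1/2 + z2)` -/
structure Par where
  e2 : ℝ
  z : ℝ
  z1 : ℝ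
  z2 : ℝ

/-- a big step has `A.n R + 1` unit steps -/
def Par.n (A : Par) (R : ℝ) : ℕ := ⌊A.e2 * Real.log R⌋₊

/-- the big time -/
def Par.tu (A : Par) (R : ℝ) : ℝ := A.n R + 1

/-- the radius of the jumps -/
def Par.r (A : Par) (R : ℝ) : ℝ := R ^ (-(1 / 2) + A.z2)

/-- admissible parameters -/
structure Adm (C : ℝ) (A : Par) : Prop where
  e2 : 0 < A.e2
  e2' : C * A.e2 ≤ 1
  z : 0 < A.z
  z1 : C * A.z ≤ A.z1
  z2 : C * A.z1 ≤ A.z2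
  up : C * A.z2 ≤ 1

/-- the relative position: `y'` in the chart of `y` -/
def rel {Γ : Type} [Group Γ] [MulAction Γ (V d)] (y y' : YS Γ d) : P d := lft (y.1⁻¹ * y'.1) y'.2

/-- one unit step with a jump of size `< r` -/
def St {Γ : Type} [Group Γ] [MulAction Γ (V d)] (G : V d → V d →L[ℝ] V d) (Φ : ℝ → P d → P d) (r0 r R : ℝ) (y y' : YS Γ d) : Prop :=
  y ∈ GW Γ G r0 2 R ∧ y' ∈ GW Γ G r0 2 R ∧ dist (Φ 1 y.2) (rel y y') < r

open Classical in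
/-- the unit step kernel -/
def us {Γ : Type} [Group Γ] [MulAction Γ (V d)] (G : V d → V d →L[ℝ] V d) (Φ : ℝ → P d → P d) (r0 : ℝ) (χ : V d → ℝ) (ch : ℝ → ℝ) (A : Par) (R : ℝ) (y y' : YS Γ d) : ℂ :=
  if St G Φ r0 (A.r R) R y y' then ∫ z, conj (psi G Φ χ ch A.z A.z1 R 1 y z) * Gp G χ ch A.z R y' z ∂mv G else 0

/-- `k + 1` unit steps -/
def usn {Γ : Type} [Group Γ] [MulAction Γ (V d)] (G : V d → V d →L[ℝ] V d) (Φ : ℝ → P d → P d) (r0 : ℝ) (χ : V d → ℝ) (ch : ℝ → ℝ) (A : Par) (R : ℝ) : ℕ → YS Γ d → YS Γ d → ℂ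
  | 0 => us G Φ r0 χ ch A R
  | k + 1 => cmZ (mY Γ d) (us G Φ r0 χ ch A R) (usn G Φ r0 χ ch A R k)

/-- the big step kernel -/
def ub {Γ : Type} [Group Γ] [MulAction Γ (V d)] (G : V d → V d →L[ℝ] V d) (Φ : ℝ → P d → P d) (r0 : ℝ) (χ : V d → ℝ) (ch : ℝ → ℝ) (A : Par) (R : ℝ) : YS Γ d → YS Γ d → ℂ :=
  usn G Φ r0 χ ch A R (A.n R)

/-- chains of `k + 1` unit steps -/
def RC {Γ : Type} [Group Γ] [MulAction Γ (V d)] (G : V d → V d →L[ℝ] V d) (Φ : ℝ → P d → P d) (r0 r R : ℝ) : ℕ → YS Γ d → YS Γ d → Prop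
  | 0 => St G Φ r0 r R
  | k + 1 => fun y y' => ∃ x, St G Φ r0 r R y x ∧ RC G Φ r0 r R k x y'

/-- `y'` can be reached from `y` in one big step -/
def Reach {Γ : Type} [Group Γ] [MulAction Γ (V d)] (G : V d → V d →L[ℝ] V d) (Φ : ℝ → P d → P d) (r0 : ℝ) (A : Par) (R : ℝ) (y y' : YS Γ d) : Prop :=
  RC G Φ r0 (A.r R) R (A.n R) y y'

/-- the phase of an invariant function `f` along the flow -/
def thP (Φ : ℝ → P d → P d) (f : V d → ℝ) (R t : ℝ) (p : P d) : ℝ := R / 2 * ∫ s in (0 : ℝ)..t, f (Φ s p).1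

/-- the big step kernel with the phase -/
def KB {Γ : Type} [Group Γ] [MulAction Γ (V d)] (G : V d → V d →L[ℝ] V d) (Φ : ℝ → P d → P d) (r0 : ℝ) (χ : V d → ℝ) (ch : ℝ → ℝ) (A : Par) (R : ℝ) (f : V d → ℝ) (y y' : YS Γ d) : ℂ :=
  Complex.exp (-(((thP Φ f R (A.tu R) y.2 : ℝ) : ℂ) * Complex.I)) * ub G Φ r0 χ ch A R y y'

/-- time averages of an invariant function along the flow -/
def avP (Φ : ℝ → P d → P d) (h : V d → ℝ) (t : ℝ) (p : P d) : ℝ := t⁻¹ * ∫ s in (0 : ℝ)..t, h (Φ s p).1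

/-- the mean value for the Riemannian volume -/
def mean (G : V d → V d →L[ℝ] V d) (F : Set (V d)) (h : V d → ℝ) : ℝ := (∫ x in F, h x ∂mv G) / (mv G F).toReal

/-- the bad set -/
def BadP (Γ : Type) (G : V d → V d →L[ℝ] V d) (Φ : ℝ → P d → P d) (F : Set (V d)) (h : V d → ℝ) (e t : ℝ) : Set (YS Γ d) := {y | e ≤ |avP Φ h t y.2 - mean G F h|}

/-- small smooth perturbations of the potential -/
structure Sm (Γ : Type) [Group Γ] [MulAction Γ (V d)] (B : ℕ → ℕ → ℝ) (κ R : ℝ) (f : V d → ℝ) : Prop where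
  inv : Inv Γ f
  smooth : ContDiff ℝ ∞ f
  bd : ∀ x, |f x| ≤ κ / R
  der : ∀ (m n : ℕ) (x : V d), ‖x‖ ≤ m → ‖iteratedFDeriv ℝ n f x‖ ≤ B m n * (κ / R)

/-- test functions -/
structure TF (Γ : Type) [Group Γ] [MulAction Γ (V d)] (h : V d → ℝ) : Prop where
  inv : Inv Γ h
  smooth : ContDiff ℝ ∞ h
  bd : ∀ x, 0 ≤ h x ∧ h x ≤ 1

/-- the operator with the kernel `K` -/
def Op {Γ : Type} (K : YS Γ d → YS Γ d → ℂ) (v : YS Γ d → ℂ) (y : YS Γ d) : ℂ := ∫ y', K y y' * v y' ∂mY Γ d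

end

end Pool.Agent.VD
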