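import Pool.Agent.helper74.VD.SpecI
import Pool.Agent.helper62.VD.SpecL

/-!
# Project VD (MP_07c750_an), block A2, part 1: linear data, symbols, change of the chart: rows `vd:AXXX`

RULES: as in `Defs.lean`. Row `vd:XXXX`: file `Pool/Agent/<seat>/VD/XXXX.lean`, `import Pool.Agent.helper74.VD.SpecA2`, the `open` lines of this file, theorem `XXXX_proof (h..) : XXXX_stmt` (rows listed in `from` may be hypotheses), auxiliary lemmas prefixed `XXXX_`.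
The rows ALCH, ALSY of helper62 (helper62/VD/SpecL.lean) are the linear algebra of `Lag`.
-/

set_option autoImplicit false

open scoped ContDiff Topology InnerProductSpace ComplexConjugate ENNReal
open MeasureTheory Filter Set

namespace Pool.Agent.VD

open Pool.Agent.VQ (CH)

noncomputable section

/-- `A` is smooth on the ball of radius `s` with `‖D^k A‖ ≤ m N^k` there for `k ≤ K` -/
def SyD {d : ℕ} (K : ℕ) (N m s : ℝ) (A : V d → ℂ) : Prop := ∀ v : V d, ‖v‖ ≤ s → ContDiffAt ℝ ∞ A v ∧ ∀ k ≤ K, ‖iteratedFDeriv ℝ k A v‖ ≤ m * N ^ k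

/-- **Row ASYD** (calculus of symbols; medium; pure; copy of VQ row VSY: Pool/Agent/*/VQ/VSY.lean with `V d` in the place of `ℂ`). Leibniz (`norm_iteratedFDeriv_mul_le`); composition `exp ∘ ψ` with `Re ψ ≤ 0` (Faa di Bruno `norm_iteratedFDeriv_comp_le`); multiplication by a cut-off with compact support: the product is globally smooth. -/
def ASYD_stmt : Prop := ∀ d K : ℕ, ∃ C : ℝ, 1 ≤ C ∧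
  (∀ (N m1 m2 s : ℝ) (A1 A2 : V d → ℂ), 1 ≤ N → 0 ≤ m1 → 0 ≤ m2 → SyD K N m1 s A1 → SyD K N m2 s A2 → SyD K N (C * m1 * m2) s (fun v => A1 v * A2 v) ∧ SyD K N (m1 + m2) s (fun v => A1 v + A2 v)) ∧
  (∀ (N s : ℝ) (ψ : V d → ℂ), 1 ≤ N → (∀ v, ‖v‖ ≤ s → ContDiffAt ℝ ∞ ψ v ∧ (ψ v).re ≤ 0 ∧ ∀ k, 1 ≤ k → k ≤ K → ‖iteratedFDeriv ℝ k ψ v‖ ≤ N ^ k) → SyD K N C s (fun v => Complex.exp (ψ v))) ∧
  ∀ (N m1 m2 s s' : ℝ) (A X : V d → ℂ), 1 ≤ N → 0 ≤ m1 → 0 ≤ m2 → s' < s → ContDiff ℝ ∞ X → (∀ v, X v ≠ 0 → ‖v‖ ≤ s') → (∀ k ≤ K, ∀ v, ‖iteratedFDeriv ℝ k X v‖ ≤ m1 * N ^ k) → SyD K N m2 s A →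
    ContDiff ℝ ∞ (fun v => X v * A v) ∧ ∀ k ≤ K, ∀ v, ‖iteratedFDeriv ℝ k (fun v => X v * A v) v‖ ≤ C * m1 * m2 * N ^ k

/-- **Row ACTD** (the cut-offs; short-medium; pure; copy of VQ row VCT: Pool/Agent/*/VQ/VCT.lean with `V d` in the place of `ℂ`). Scaling of a fixed function. -/
def ACTD_stmt : Prop := ∀ (d : ℕ) (ch : ℝ → ℝ) (K : ℕ), CH ch → ∃ C : ℝ, 1 ≤ C ∧ ∀ ζ R : ℝ, 0 ≤ ζ → ζ ≤ 1 / 2 → 1 ≤ R →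
  ContDiff ℝ ∞ (fun v : V d => ((ch (R ^ (1 - 2 * ζ) * ‖v‖ ^ 2) : ℝ) : ℂ)) ∧ (∀ v : V d, ch (R ^ (1 - 2 * ζ) * ‖v‖ ^ 2) ≠ 0 → ‖v‖ ≤ R ^ (-(1 / 2) + ζ)) ∧
  (∀ k ≤ K, ∀ v : V d, ‖iteratedFDeriv ℝ k (fun v : V d => ((ch (R ^ (1 - 2 * ζ) * ‖v‖ ^ 2) : ℝ) : ℂ)) v‖ ≤ C * (R ^ (1 / 2 : ℝ)) ^ k) ∧
  (∀ v : V d, ‖v‖ ≤ R ^ (-(1 / 2) + ζ) / 2 → ch (R ^ (1 - 2 * ζ) * ‖v‖ ^ 2) = 1) ∧
  ∀ k ≤ K, ∀ v : V d, ‖iteratedFDeriv ℝ k (fun v : V d => ((b0 ch ζ R v : ℝ) : ℂ)) v‖ ≤ C * (R ^ (1 / 2 : ℝ)) ^ k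

/- **ROW ABMA** (FINAL STATEMENT of SpecI: linear data along the flow; medium; from ALCH, ALSY, ALFX, ACNF; helper80 rows GUN, GXH, FC1 for the variational equation). `Lag (C L)`: ALSY for `f = Φ t` (symplectic ALFX, derivative bounded ACNF; `Ham ≤ 2` from `|Ep| ≤ 1/4`); `det ≠ 0` and the bounds of `Mt`: ALSY for the data at the time `t`; symmetric: `Yᵀ P = Pᵀ Y`.
`Im qf (P Y⁻¹) w = |Y⁻¹ w|²` for real `w` (as in ALSY last part: `w = Y u`, `Im (Y u)* P u = |u|²`) `≥ |w|²/(C L)²`. `amp² det Y(t) = det Y0`: `t ↦ Yf (Φ t) p Y0 P0` is differentiable (joint smoothness of `Φ`), `(det Y)' = tr (Y' Y⁻¹) det Y` (Jacobi: `Matrix.det` derivative, e.g. `det (Y + h Y') = det Y (1 + h tr (Y⁻¹ Y') + O(h²))`), so `amp² det Y` has derivative `0`; continuity of the integrand.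
`|amp|² = |det Y0| / |det Y(t)|`: both bounds in ALSY. -/

/-- **Row AGSD** (THE GAUSSIAN FACTOR; medium; from ASYD, ALSY; pure). `ψ v = i R qf M v / 2`, `Re ψ = -(R/2) Im qf M v ≤ 0`, `‖M‖ ≤ C R^(2e)`: for `‖v‖ ≤ c⁻¹ R^(-1/2+ζ1)`: `‖Dψ‖ ≤ C R^(1/2+ζ1+2e)/c`, `‖D²ψ‖ ≤ C R^(1+2e)`, `D³ψ = 0`, so ASYD second part with `N = R^(1/2+Cζ1)`; the constant is `≤ R^ζ1`. Second claim: for `c R^(-1/2+ζ1) ≤ ‖v‖`: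
`Im qf M v ≥ ‖v‖²/(C R^(2e))`, so `|exp ψ| ≤ exp (-c² R^(2ζ1 - 2e)/C) ≤ exp (-R^ζ1)` and all derivatives are `|exp ψ|` times polynomials `≤ R^(C Kd)` in the derivatives of `ψ` (apply ASYD to `ψ - ψ(v0)`-type argument, or write `exp ψ = exp (ψ/2) exp (ψ/2)` with Leibniz, where one factor and its derivatives are estimated by Faa di Bruno times `|exp (ψ/2)|`). -/
def AGSD_stmt : Prop := ∀ d : ℕ, ∃ C : ℝ, 1 ≤ C ∧ ∀ (Kd : ℕ) (e ζ1 c M : ℝ), 0 ≤ e → 0 < ζ1 → C * e ≤ ζ1 → C * ζ1 ≤ 1 → 0 < c → c ≤ 1 → ∃ R0 : ℝ, 1 ≤ R0 ∧ ∀ (R : ℝ) (Y0 P0 : MC d), R0 ≤ R → Lag (R ^ e) Y0 P0 →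
  SyD Kd (R ^ (1 / 2 + C * ζ1)) (R ^ ζ1) (c⁻¹ * R ^ (-(1 / 2) + ζ1)) (fun v => Complex.exp (Complex.I * (R : ℂ) * (qf (P0 * Y0⁻¹) v / 2))) ∧
  ∀ v : V d, c * R ^ (-(1 / 2) + ζ1) ≤ ‖v‖ → ‖v‖ ≤ c⁻¹ * R ^ (-(1 / 2) + ζ1) → ∀ k ≤ Kd, ‖iteratedFDeriv ℝ k (fun v : V d => Complex.exp (Complex.I * (R : ℂ) * (qf (P0 * Y0⁻¹) v / 2))) v‖ ≤ R ^ (-M)

/-- the remainder of the phase of a Gaussian packet in another chart -/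
def rk {Γ : Type} {d : ℕ} [Group Γ] [MulAction Γ (V d)] (κ : Γ) (q : P d) (M M' : MC d) (v : V d) : ℂ :=
  ((⟪q.2, κ⁻¹ • (κ • q.1 + v) - q.1⟫_ℝ : ℝ) : ℂ) + qf M (κ⁻¹ • (κ • q.1 + v) - q.1) / 2 - (((⟪(lft κ q).2, v⟫_ℝ : ℝ) : ℂ) + qf M' v / 2)

/-- **Row ATKD** (TAYLOR EXPANSION OF A CHANGE OF CHARTS; medium; from ASGF, ALFX, ALSY, AMVI, GLF). `τ v = κ⁻¹ (κ x + v) - x` (`x = q.1`) is smooth, `τ 0 = 0`, `Dτ(0) = Dκ(x)⁻¹ =: E`, all derivatives bounded on `‖v‖ ≤ 1` (ASGF for `κ⁻¹ ∈ SG r'`), `C⁻¹ ‖v‖ ≤ ‖τ v‖ ≤ C ‖v‖`. `(lft κ q).2 · v = ξ·E v` (ALFX last part). `Y' = Dκ(x) Y`, `P' = N Y + E* P` (real matrices) where `N u` = derivative at `x`, in the direction `u`, of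
`x ↦ (Dκ(x)*)⁻¹ ξ = (Dκ⁻¹(κ x))* ξ`, i.e. `⟪N u, w⟫ = ξ·D²κ⁻¹(κx)(Dκ(x) u, w)`; so `M' = P' Y'⁻¹ = E* M E + N E` and `⟪N E v, v⟫ = ξ·D²τ(0)(v, v)`. Hence `rk = ξ·(τ v - E v - ½ D²τ(0)(v,v)) + ½ (qf M (τ v) - qf M (E v))` vanishes to third order. `‖M‖ ≤ C L²` (ALSY). `rk` and all its derivatives are `≤ C L²`; the orders `≤ 2` vanish at `0`.
Density: `dens(κ x + v) |det Dκ(κ⁻¹(κ x + v))| = dens(κ⁻¹(κ x + v))` (AMVI). -/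
def ATKD_stmt : Prop := ∀ (d : ℕ) (Γ : Type) [Group Γ] [MulAction Γ (V d)] (K : Set (V d)) (k : ℝ) (B : ℕ → ℕ → ℝ) (r : ℝ) (Kd : ℕ), FdK Γ K → ∃ C : ℝ, 1 ≤ C ∧ ∀ (G : V d → V d →L[ℝ] V d) (κ : Γ) (q : P d) (L : ℝ) (Y0 P0 : MC d), Cls Γ K k B G → κ ∈ SG Γ d r → ‖q.1‖ ≤ r - 1 → ‖q.2‖ ≤ r → 1 ≤ L → Lag L Y0 P0 →
  (∀ v : V d, ‖v‖ ≤ 1 → ContDiffAt ℝ ∞ (rk κ q (P0 * Y0⁻¹) (Pf (lft κ) q Y0 P0 * (Yf (lft κ) q Y0 P0)⁻¹)) v ∧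
    (∀ j ≤ 3, ‖iteratedFDeriv ℝ j (rk κ q (P0 * Y0⁻¹) (Pf (lft κ) q Y0 P0 * (Yf (lft κ) q Y0 P0)⁻¹)) v‖ ≤ C * L ^ 2 * ‖v‖ ^ (3 - j)) ∧
    (∀ j ≤ Kd, ‖iteratedFDeriv ℝ j (rk κ q (P0 * Y0⁻¹) (Pf (lft κ) q Y0 P0 * (Yf (lft κ) q Y0 P0)⁻¹)) v‖ ≤ C * L ^ 2) ∧
    C⁻¹ * ‖v‖ ≤ ‖κ⁻¹ • (κ • q.1 + v) - q.1‖ ∧ ‖κ⁻¹ • (κ • q.1 + v) - q.1‖ ≤ C * ‖v‖ ∧ (∀ j ≤ Kd, ‖iteratedFDeriv ℝ j (fun v : V d => κ⁻¹ • (κ • q.1 + v)) v‖ ≤ C) ∧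
    (Real.sqrt (dens G (κ⁻¹ • (κ • q.1 + v))))⁻¹ = (Real.sqrt |(fderiv ℝ (fun y : V d => κ • y) (κ⁻¹ • (κ • q.1 + v))).det|)⁻¹ * (Real.sqrt (dens G (κ • q.1 + v)))⁻¹ ∧
    ContDiffAt ℝ ∞ (fun v : V d => (Real.sqrt |(fderiv ℝ (fun y : V d => κ • y) (κ⁻¹ • (κ • q.1 + v))).det|)⁻¹) v ∧ ContDiffAt ℝ ∞ (fun v : V d => (Real.sqrt (dens G (κ • q.1 + v)))⁻¹) v ∧
    ∀ j ≤ Kd, ‖iteratedFDeriv ℝ j (fun v : V d => (Real.sqrt |(fderiv ℝ (fun y : V d => κ • y) (κ⁻¹ • (κ • q.1 + v))).det|)⁻¹) v‖ ≤ C ∧ ‖iteratedFDeriv ℝ j (fun v : V d => (Real.sqrt (dens G (κ • q.1 + v)))⁻¹) v‖ ≤ C) ∧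
  Lag (C * L) (Yf (lft κ) q Y0 P0) (Pf (lft κ) q Y0 P0) ∧ (Yf (lft κ) q Y0 P0).det = ((fderiv ℝ (fun y : V d => κ • y) q.1).det : ℂ) * Y0.det

/- **ROW ABMC** (FINAL STATEMENT ABMC of SpecI: change of the chart of a beam; medium-long; from ATKD, AGSD, ASYD, ACTD, ALSY). `w = κ x + v`, `L = R^e`, `E v = exp (i R qf M' v / 2)` (AGSD for the data `Yf, Pf`, which are `Lag (C R^e)`, `C R^e ≤ R^(e')` with `e' = 2 e` or, for `e = 0`, `e' = ζ1/C`: choose any fixed `e' ≤ ζ1/C`).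
Profile at `v`: `dens(w)^(-1/2) E v [ ch(R^(1-2ζ1) ‖τ v‖²) g(v) e^(i R rk(v)) - ch(R^(1-2ζ1) ‖v‖²) g(0) ]`, `g(v) = |det Dκ(κ⁻¹ w)|^(-1/2)`. Write `[..] = ch(‖τ v‖) (g(v) e^(iR rk) - g(0)) + g(0) (ch(‖τ v‖) - ch(‖v‖))`. On the support `‖v‖ ≤ C R^(-1/2+ζ1)`: `R rk` is a symbol of size `R^(-1/2+Cζ1)` with `N = R^(1/2+Cζ1)` (third order vanishing for the derivatives of order `≤ 3`, and `R C L² ≤ R^(-1/2) N^j` for `j ≥ 4`), hence so are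
`e^(iR rk) - 1 = i R rk ∫_0^1 e^(i θ R rk) dθ` (or the series) and `g(v) - g(0)`. The second term lives on `C⁻¹ R^(-1/2+ζ1)/2 ≤ ‖v‖ ≤ C R^(-1/2+ζ1)`, where `E` is `≤ R^(-M)` with all derivatives (AGSD second claim). Global smoothness: the two functions vanish for `‖v‖ ≥ C R^(-1/2+ζ1)`. -/

end

end Pool.Agent.VD
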