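import Pool.Agent.helper74.VD.SpecI

/-!
# Project VD (MP_07c750_an), block A3: families of packets, Schur bounds, energy estimates: rows `vd:AXXX`

RULES: as in `Defs.lean`. Row `vd:XXXX`: file `Pool/Agent/<seat>/VD/XXXX.lean`, `import Pool.Agent.helper74.VD.SpecA3` (and the specs of other hypotheses), the `open` lines of this file, theorem `XXXX_proof (h..) : XXXX_stmt` (rows listed in `from` may be hypotheses), auxiliary lemmas prefixed `XXXX_`.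
Rows of A0, A1, A2: `SpecI.lean`. Almost every row is the copy of a row of VQ (named in the docstring; statements in helper74/VQ/SpecA.lean, SpecB.lean, SpecC.lean, proofs in Pool/Agent/*/VQ/V*.lean); the geometry is simpler now (flat coordinates, finitely many changes of charts).

A family is a function `f y` of the local coordinate `w = y.1⁻¹ z` for every index `y`, of class `Pk` at the point `Φ t y.2`; `pF f y z = f y (y.1⁻¹ z)`.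
CONSTANTS: `C` depends on `(d, Γ, K, k, B, r0)` only; the number of derivatives `Kd` and `R0` also on the exponents. `R^(Cη)` absorbs all constants.
-/

set_option autoImplicit false

open scoped ContDiff Topology InnerProductSpace ComplexConjugate ENNReal
open MeasureTheory Filter Set

namespace Pool.Agent.VD

open Pool.Agent.VQ (CH)

noncomputable section

/-- families of packets at the time `t` (they depend only on the point of phase space, not on the chart) -/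
structure Fa {Γ : Type} {d : ℕ} [Group Γ] [MulAction Γ (V d)] (G : V d → V d →L[ℝ] V d) (Φ : ℝ → P d → P d) (r0 : ℝ) (Kd : ℕ) (η m R t : ℝ) (f : YS Γ d → V d → ℂ) : Prop where
  cont : ∀ γ : Γ, Continuous fun x : P d × V d => f ((γ, x.1) : YS Γ d) x.2
  inv : ∀ (γ : Γ) (y : YS Γ d), f (γ • y) = f y
  pk : ∀ y ∈ GW Γ G r0 2 R, Pk Kd η m R (Φ t y.2) (f y)

/-- the packet of the index `y` on `V d` -/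
def pF {Γ : Type} {d : ℕ} [Group Γ] [MulAction Γ (V d)] (f : YS Γ d → V d → ℂ) (y : YS Γ d) (z : V d) : ℂ := f y (y.1⁻¹ • z)

/-- synthesis -/
def sF {Γ : Type} {d : ℕ} [Group Γ] [MulAction Γ (V d)] (G : V d → V d →L[ℝ] V d) (r0 R : ℝ) (f : YS Γ d → V d → ℂ) (v : YS Γ d → ℂ) (z : V d) : ℂ := ∫ y, v y * pF f y z ∂mW Γ G r0 R

/-- analysis (on the window) -/
def aF {Γ : Type} {d : ℕ} [Group Γ] [MulAction Γ (V d)] (G : V d → V d →L[ℝ] V d) (r0 R : ℝ) (f : YS Γ d → V d → ℂ) (φ : V d → ℂ) : YS Γ d → ℂ :=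
  (GW Γ G r0 2 R).indicator fun y => ∫ z, φ z * conj (pF f y z) ∂mv G

/-- the packets as a family (`pF fG = Gp`) -/
def fG {Γ : Type} {d : ℕ} (G : V d → V d →L[ℝ] V d) (χ : V d → ℝ) (ch : ℝ → ℝ) (ζ R : ℝ) (y : YS Γ d) (w : V d) : ℂ := (χ y.2.1 : ℂ) * pkt G ch ζ R y.2 w

/-- the evolved packets as a family (`pF fP = psi`) -/
def fP {Γ : Type} {d : ℕ} (G : V d → V d →L[ℝ] V d) (Φ : ℝ → P d → P d) (χ : V d → ℝ) (ch : ℝ → ℝ) (ζ ζ1 R t : ℝ) (y : YS Γ d) (w : V d) : ℂ :=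
  ((χ y.2.1 * cR d ch ζ R : ℝ) : ℂ) * bt G Φ ch ζ1 R 1 (Complex.I • 1) y.2 t w

/-- the errors of the evolved packets as a family -/
def fE {Γ : Type} {d : ℕ} (G : V d → V d →L[ℝ] V d) (Φ : ℝ → P d → P d) (χ : V d → ℝ) (ch : ℝ → ℝ) (ζ ζ1 R t : ℝ) (y : YS Γ d) (w : V d) : ℂ :=
  ((χ y.2.1 * cR d ch ζ R : ℝ) : ℂ) * Eb G Φ ch ζ1 R 1 (Complex.I • 1) y.2 t w

/-! ## Overlaps -/

/-- **Row APKC** (packets under changes of charts; medium; from ASGF, ALFX). `f(κ⁻¹ w) = exp (i R ξ·(κ⁻¹ w - x)) A(κ⁻¹ w - x)`; with `w = κ x + v`: `κ⁻¹ w - x = Dκ⁻¹ v + N(v)`, `N = O(|v|²)`, and `ξ·Dκ⁻¹ v = (lft κ q).2·v`. New profile `exp (i R ξ·N(v)) A(Dκ⁻¹ v + N(v))`: support in `‖v‖ ≤ C R^(-1/2+η)`, there `‖D^j (R ξ·N)‖ ≤ C R^(1/2+η)` for `j = 1`, `≤ C R` for `j ≥ 2`,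
so `‖D^j exp (..)‖ ≤ C (R^(1/2+η))^j` (Faa di Bruno `norm_iteratedFDeriv_comp_le`, Leibniz), `‖D^j (A ∘ ..)‖ ≤ C m (C R^(1/2+η))^j`. All constants (they depend on `Kd`) are absorbed by `R^η` for `R ≥ R0`. (VQ row VSY has the calculus of symbols.) -/
def APKC_stmt : Prop := ∀ (d : ℕ) (Γ : Type) [Group Γ] [MulAction Γ (V d)] (K : Set (V d)) (r : ℝ) (Kd : ℕ) (η : ℝ), FdK Γ K → 0 < η → η ≤ 1 / 8 → ∃ R0 : ℝ, 1 ≤ R0 ∧ ∀ (R m : ℝ) (κ : Γ) (q : P d) (f : V d → ℂ), R0 ≤ R → 0 ≤ m → κ ∈ SG Γ d r → ‖q.1‖ ≤ r - 1 → ‖κ • q.1‖ ≤ r - 1 → ‖q.2‖ ≤ r →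
  Pk Kd η m R q f → Pk Kd (2 * η) (m * R ^ η) R (lft κ q) (fun w => f (κ⁻¹ • w))

/-- **Row ANSD** (nonstationary phase; medium; pure; copy of VNS). `Kd` integrations by parts in the direction `ξ/‖ξ‖`. The ball of radius `s` is contained in a cube of volume `(2 s)^d`. -/
def ANSD_stmt : Prop := ∀ (d Kd : ℕ) (R s m N : ℝ) (ξ : V d) (A : V d → ℂ), 0 < R → 0 < s → 0 ≤ m → 0 ≤ N → ξ ≠ 0 → ContDiff ℝ ∞ A → (∀ v, A v ≠ 0 → ‖v‖ ≤ s) → (∀ v, ‖iteratedFDeriv ℝ Kd A v‖ ≤ m * N ^ Kd) →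
  ‖∫ v : V d, A v * Complex.exp (((R * ⟪ξ, v⟫_ℝ : ℝ) : ℂ) * Complex.I)‖ ≤ (2 * s) ^ d * m * (N / (R * ‖ξ‖)) ^ Kd

/-- **Row AOVD** (OVERLAPS IN ONE CHART; medium; from ANSD, AHLD). `∫ f1 conj f2 dens dw = const ∫ A(v) exp (i R (ξ1 - ξ2)·v) dv`, `A(v) = A1(v) conj A2(v + x1 - x2) dens(x1 + v)`; volume of the support `≤ (2 R^(-1/2+η))^d`; if `‖x1 - x2‖ > 2 R^(-1/2+η)` the integral vanishes; Leibniz: `‖D^j A‖ ≤ C m1 m2 (R^(1/2+η))^j`;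
if `‖ξ1 - ξ2‖ ≥ R^(-1/2+3η)`: ANSD with `N = R^(1/2+η)`: `(R^(-2η))^Kd`, choose `Kd ≥ (M + 1)/(2η)`. -/
def AOVD_stmt : Prop := ∀ (d : ℕ) (Γ : Type) [Group Γ] [MulAction Γ (V d)] (K : Set (V d)) (k : ℝ) (B : ℕ → ℕ → ℝ) (r M η : ℝ), FdK Γ K → 0 < η → η ≤ 1 / 16 → ∃ (Kd : ℕ) (R0 : ℝ), 1 ≤ R0 ∧ ∀ (R m1 m2 : ℝ) (G : V d → V d →L[ℝ] V d) (q1 q2 : P d) (f1 f2 : V d → ℂ), R0 ≤ R → Cls Γ K k B G → 0 ≤ m1 → 0 ≤ m2 → ‖q1.1‖ ≤ r →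
  Pk Kd η m1 R q1 f1 → Pk Kd η m2 R q2 f2 → ‖∫ w, f1 w * conj (f2 w) ∂mv G‖ ≤ m1 * m2 * R ^ (-((d : ℝ) / 2) + (d + 1) * η) ∧ ((∫ w, f1 w * conj (f2 w) ∂mv G) ≠ 0 → ‖q1.1 - q2.1‖ ≤ 2 * R ^ (-(1 / 2) + η)) ∧
    (¬dist q1 q2 < R ^ (-(1 / 2) + 4 * η) → ‖∫ w, f1 w * conj (f2 w) ∂mv G‖ ≤ m1 * m2 * R ^ (-M))

/-- **Row AFOD** (OVERLAPS OF FAMILIES; medium; from AOVD, APKC, ACNF, ASGF, ALFX, AMVI). `z = y.1 w`: the integral is `∫ f_y(w) conj (f'_(y')(κ⁻¹ w)) dmv(w)`, `κ = y.1⁻¹ y'.1`. If it does not vanish there is `w` within `1` of `(Φ t y.2).1` and `κ⁻¹ w` within `1` of `(Φ t' y'.2).1`, both in the ball of radius `r1` (ACNF), so `κ ∈ SG r`.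
APKC for `f'`, then AOVD with `2η`. -/
def AFOD_stmt : Prop := ∀ (d : ℕ) (Γ : Type) [Group Γ] [MulAction Γ (V d)] (K : Set (V d)) (k : ℝ) (B : ℕ → ℕ → ℝ) (r0 : ℝ), FdK Γ K → ∃ C : ℝ, 1 ≤ C ∧ ∀ (M η : ℝ), 0 < η → C * η ≤ 1 → ∃ (Kd : ℕ) (R0 : ℝ), 1 ≤ R0 ∧ ∀ (R m m' t t' : ℝ) (G : V d → V d →L[ℝ] V d) (Φ : ℝ → P d → P d) (f f' : YS Γ d → V d → ℂ) (y y' : YS Γ d), R0 ≤ R → OKA Γ K k B G Φ → 0 ≤ m → 0 ≤ m' → |t| ≤ 1 → |t'| ≤ 1 →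
  y ∈ GW Γ G r0 2 R → y' ∈ GW Γ G r0 2 R → Pk Kd η m R (Φ t y.2) (f y) → Pk Kd η m' R (Φ t' y'.2) (f' y') →
    ‖∫ z, pF f y z * conj (pF f' y' z) ∂mv G‖ ≤ m * m' * R ^ (-((d : ℝ) / 2) + C * η) ∧ ((∫ z, pF f y z * conj (pF f' y' z) ∂mv G) ≠ 0 → y.1⁻¹ * y'.1 ∈ SG Γ d C) ∧
    (¬dist (Φ t y.2) (lft (y.1⁻¹ * y'.1) (Φ t' y'.2)) < R ^ (-(1 / 2) + C * η) → ‖∫ z, pF f y z * conj (pF f' y' z) ∂mv G‖ ≤ m * m' * R ^ (-M))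

/-- **Row AFSD** (SCHUR BOUND; medium; from AFOD, ALFX, ASGF, ADMD). `C s^(2d)` bounds the volume of `{p | dist q0 (lft κ (Φ t' p)) < s}` (the maps preserve the Lebesgue measure), finitely many `κ`; the rest: `R^(-M)` times the volume of the window `≤ C`. The same for the other variable (conjugate). -/
def AFSD_stmt : Prop := ∀ (d : ℕ) (Γ : Type) [Group Γ] [MulAction Γ (V d)] (K : Set (V d)) (k : ℝ) (B : ℕ → ℕ → ℝ) (r0 : ℝ), FdK Γ K → ∃ C : ℝ, 1 ≤ C ∧ ∀ η : ℝ, 0 < η → C * η ≤ 1 → ∃ (Kd : ℕ) (R0 : ℝ), 1 ≤ R0 ∧ ∀ (R m m' t t' : ℝ) (G : V d → V d →L[ℝ] V d) (Φ : ℝ → P d → P d) (f f' : YS Γ d → V d → ℂ), R0 ≤ R → OKA Γ K k B G Φ → 0 ≤ m → 0 ≤ m' → |t| ≤ 1 → |t'| ≤ 1 →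
  Fa G Φ r0 Kd η m R t f → Fa G Φ r0 Kd η m' R t' f' →
    (∀ y ∈ GW Γ G r0 2 R, ∫⁻ y' in GW Γ G r0 2 R, ‖∫ z, pF f y z * conj (pF f' y' z) ∂mv G‖ₑ ∂mY Γ d ≤ ENNReal.ofReal (m * m' * R ^ (-(3 * (d : ℝ) / 2) + C * η))) ∧
    ∀ y' ∈ GW Γ G r0 2 R, ∫⁻ y in GW Γ G r0 2 R, ‖∫ z, pF f y z * conj (pF f' y' z) ∂mv G‖ₑ ∂mY Γ d ≤ ENNReal.ofReal (m * m' * R ^ (-(3 * (d : ℝ) / 2) + C * η))

/-- **Row AVOL** (volumes; short; from ALFX, ADMD, ASGF). Balls of `P d` (sup norm of two Euclidean balls). -/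
def AVOL_stmt : Prop := ∀ (d : ℕ) (Γ : Type) [Group Γ] [MulAction Γ (V d)] (K : Set (V d)) (k : ℝ) (B : ℕ → ℕ → ℝ) (r0 r : ℝ), FdK Γ K → ∃ C : ℝ, 1 ≤ C ∧ ∀ (R : ℝ) (G : V d → V d →L[ℝ] V d) (Φ : ℝ → P d → P d), 1 ≤ R → OKA Γ K k B G Φ → ∀ (y : YS Γ d) (q : P d) (t s : ℝ), 0 < s →
  mY Γ d {y' | y' ∈ GW Γ G r0 2 R ∧ y.1⁻¹ * y'.1 ∈ SG Γ d r ∧ dist q (lft (y.1⁻¹ * y'.1) (Φ t y'.2)) < s} ≤ ENNReal.ofReal (C * s ^ (2 * d)) ∧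
  mY Γ d {y' | y' ∈ GW Γ G r0 2 R ∧ y.1⁻¹ * y'.1 ∈ SG Γ d r} ≤ ENNReal.ofReal C ∧ (∀ p : P d, ‖p.1‖ ≤ r → |Ep G p| ≤ 2 → ‖p.2‖ ≤ C)

/-! ## Norms of families -/

/-- **Row AFRD** (regularity of families, duality; medium; from AMVI, ADMD, ACNF; copy of VFR, and of VQS for packets). For `z` in a compact set only finitely many charts contribute. Dominated convergence. Duality: Fubini and unfolding (VQ row VSH first part with the group `Λ`, or ADMD). -/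
def AFRD_stmt : Prop := ∀ (d : ℕ) (Γ : Type) [Group Γ] [MulAction Γ (V d)] (K : Set (V d)) (k : ℝ) (B : ℕ → ℕ → ℝ) (r0 : ℝ), FdK Γ K → ∃ C : ℝ, 1 ≤ C ∧ ∀ (Kd : ℕ) (η m R t : ℝ) (G : V d → V d →L[ℝ] V d) (Φ : ℝ → P d → P d) (f : YS Γ d → V d → ℂ), C ≤ R → OKA Γ K k B G Φ → 0 < η → η ≤ 1 / 4 → 0 ≤ m → |t| ≤ 1 → Fa G Φ r0 Kd η m R t f →
  (∀ y ∈ GW Γ G r0 2 R, ∀ z, ‖pF f y z‖ ≤ m ∧ (pF f y z ≠ 0 → ‖y.1⁻¹ • z‖ ≤ C ∧ ‖y.1⁻¹ • z - (Φ t y.2).1‖ ≤ R ^ (-(1 / 2) + η))) ∧ (∀ (γ : Γ) (y : YS Γ d) (z : V d), pF f (γ • y) (γ • z) = pF f y z) ∧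
  ∀ (Λ : Subgroup Γ) (F : Set (V d)) (T : Set Γ), Dm Λ F T → (∀ v : YS Γ d → ℂ, FP Λ T v → FH Λ F (sF G r0 R f v)) ∧ (∀ φ : V d → ℂ, FH Λ F φ → FP Λ T (aF G r0 R f φ)) ∧
    ∀ (φ : V d → ℂ) (v : YS Γ d → ℂ), FH Λ F φ → FP Λ T v → ∫ y in DT d T ∩ GW Γ G r0 2 R, aF G r0 R f φ y * conj (v y) ∂mY Γ d = ∫ z in F, φ z * conj (sF G r0 R f v z) ∂mv G

/-- **Row AFBD** (THE NORM OF A FAMILY; medium; from AFSD, AFRD, ADMD, VQ.VSH; copy of VFB). `‖sF v‖² = ∫ v conj (Gram v)`, Schur test on the quotient (VQ row VSH for the group `Λ` acting on `YS Γ d`, measure `mW`), then duality. -/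
def AFBD_stmt : Prop := ∀ (d : ℕ) (Γ : Type) [Group Γ] [MulAction Γ (V d)] (K : Set (V d)) (k : ℝ) (B : ℕ → ℕ → ℝ) (r0 : ℝ), FdK Γ K → ∃ C : ℝ, 1 ≤ C ∧ ∀ η : ℝ, 0 < η → C * η ≤ 1 → ∃ (Kd : ℕ) (R0 : ℝ), 1 ≤ R0 ∧ ∀ (R m t : ℝ) (G : V d → V d →L[ℝ] V d) (Φ : ℝ → P d → P d) (f : YS Γ d → V d → ℂ), R0 ≤ R → OKA Γ K k B G Φ → 0 ≤ m → |t| ≤ 1 → Fa G Φ r0 Kd η m R t f →
  ∀ (Λ : Subgroup Γ) (F : Set (V d)) (T : Set Γ), Dm Λ F T → (∀ v : YS Γ d → ℂ, FP Λ T v → nn G F (sF G r0 R f v) ≤ (m * R ^ (-(3 * (d : ℝ) / 4) + C * η)) ^ 2 * nP G r0 T 2 R v) ∧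
    ∀ φ : V d → ℂ, FH Λ F φ → nP G r0 T 2 R (aF G r0 R f φ) ≤ (m * R ^ (-(3 * (d : ℝ) / 4) + C * η)) ^ 2 * nn G F φ

/-! ## Energy estimates -/

/-- **Row AEND** (ENERGY ESTIMATE; medium; from AGRD, AMVI, ADMD; copy of VEN). `N(s) = ∫_F |w s|² dmv`, `N' = 2 Re ∫ e conj w ≤ 2 ε √N` because `∫ Hop w conj w` is real (AGRD). -/
def AEND_stmt : Prop := ∀ (d : ℕ) (Γ : Type) [Group Γ] [MulAction Γ (V d)] (K : Set (V d)) (k : ℝ) (B : ℕ → ℕ → ℝ) (G : V d → V d →L[ℝ] V d), FdK Γ K → Cls Γ K k B G → ∀ (Λ : Subgroup Γ) (F : Set (V d)) (T : Set Γ), Dm Λ F T → ∀ (R t ε b : ℝ) (w e : ℝ → V d → ℂ), 1 ≤ R → 0 ≤ t → 0 ≤ ε →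
  (∀ s ∈ Icc 0 t, FH Λ F (w s) ∧ ContDiff ℝ 2 (w s) ∧ FH Λ F (e s) ∧ nn G F (e s) ≤ ε ^ 2) → (∀ s ∈ Icc 0 t, ∀ z ∈ F, (w s z ≠ 0 ∨ e s z ≠ 0) → ‖z‖ ≤ b) →
  ContinuousOn (fun x : ℝ × V d => w x.1 x.2) (Icc 0 t ×ˢ univ) → ContinuousOn (fun x : ℝ × V d => lap G (w x.1) x.2) (Icc 0 t ×ˢ univ) → ContinuousOn (fun x : ℝ × V d => e x.1 x.2) (Icc 0 t ×ˢ univ) →
  (∀ s ∈ Icc 0 t, ∀ z, HasDerivAt (fun r => w r z) (-(Complex.I * Hop G R (w s) z) + e s z) s) → Real.sqrt (nn G F (w t)) ≤ Real.sqrt (nn G F (w 0)) + t * ε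

/-- **Row AFMD** (the families of the project; short-medium; from ABMP, ABMR, AQSD, ABRD, ACNF). `χ ≤ 1`, `cR ≤ R^(3d/4)`. Continuity: ABMR, AQSD. The last part: the difference of the beams with two cut-offs, and of `psi(0)` and `Gp`, are families of size `R^(-M)`. -/
def AFMD_stmt : Prop := ∀ (d : ℕ) (Γ : Type) [Group Γ] [MulAction Γ (V d)] (K : Set (V d)) (k : ℝ) (B : ℕ → ℕ → ℝ) (r0 : ℝ) (χ : V d → ℝ), FdK Γ K → PU Γ r0 χ → ∃ C : ℝ, 1 ≤ C ∧ ∀ (ch : ℝ → ℝ) (Kd : ℕ) (ζ ζ1 M : ℝ), CH ch → 0 < ζ → ζ ≤ ζ1 → C * ζ1 ≤ 1 → ∃ R0 : ℝ, 1 ≤ R0 ∧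
  ∀ (R t : ℝ) (G : V d → V d →L[ℝ] V d) (Φ : ℝ → P d → P d), R0 ≤ R → OKA Γ K k B G Φ → |t| ≤ 1 →
    Fa (Γ := Γ) G Φ r0 Kd (C * ζ1) (R ^ (3 * (d : ℝ) / 4 + C * ζ1)) R t (fP G Φ χ ch ζ ζ1 R t) ∧ Fa (Γ := Γ) G Φ r0 Kd (C * ζ1) (R ^ (3 * (d : ℝ) / 4 - 1 / 2 + C * ζ1)) R t (fE G Φ χ ch ζ ζ1 R t) ∧
    Fa (Γ := Γ) G Φ r0 Kd (C * ζ1) (R ^ (3 * (d : ℝ) / 4 + C * ζ1)) R 0 (fG G χ ch ζ R) ∧
    Fa (Γ := Γ) G Φ r0 Kd (C * ζ1) (R ^ (-M)) R 0 (fun y w => fP G Φ χ ch ζ ζ1 R 0 y w - fG G χ ch ζ R y w) ∧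
    (∀ (y : YS Γ d) (z : V d), pF (fP G Φ χ ch ζ ζ1 R t) y z = psi G Φ χ ch ζ ζ1 R t y z) ∧ (∀ (y : YS Γ d) (z : V d), pF (fG G χ ch ζ R) y z = Gp G χ ch ζ R y z)

/-- **Row AFDD** (evolution of synthesised beams; medium-long; from ABMR, AFRD, AFMD, ACNF, ADMD, AMVI; copy of VFD). `b` depends on everything; the constant `C` of the hypotheses is that of AFMD and AFRD. For `z` in a compact set only finitely many charts contribute, `p` in the compact window; `bt`, its derivatives, `lap`, `Eb` are continuous in all variables (ABMR); `lap G` of a function in another chart: AMVI. -/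
def AFDD_stmt : Prop := ∀ (d : ℕ) (Γ : Type) [Group Γ] [MulAction Γ (V d)] (K : Set (V d)) (k : ℝ) (B : ℕ → ℕ → ℝ) (r0 : ℝ) (χ : V d → ℝ), FdK Γ K → PU Γ r0 χ → ∃ C : ℝ, 1 ≤ C ∧ ∀ (ch : ℝ → ℝ) (ζ ζ1 : ℝ), CH ch → 0 < ζ → ζ ≤ ζ1 → C * ζ1 ≤ 1 → ∃ R0 : ℝ, 1 ≤ R0 ∧
  ∀ (R : ℝ) (G : V d → V d →L[ℝ] V d) (Φ : ℝ → P d → P d), R0 ≤ R → OKA Γ K k B G Φ → ∀ (Λ : Subgroup Γ) (F : Set (V d)) (T : Set Γ), Dm Λ F T → ∀ v : YS Γ d → ℂ, FP Λ T v → ∃ b : ℝ,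
    (∀ s ∈ Icc (0 : ℝ) 1, FH Λ F (sF G r0 R (fP G Φ χ ch ζ ζ1 R s) v) ∧ ContDiff ℝ 2 (sF G r0 R (fP G Φ χ ch ζ ζ1 R s) v) ∧ FH Λ F (sF G r0 R (fE G Φ χ ch ζ ζ1 R s) v)) ∧
    (∀ s ∈ Icc (0 : ℝ) 1, ∀ z ∈ F, (sF G r0 R (fP G Φ χ ch ζ ζ1 R s) v z ≠ 0 ∨ sF G r0 R (fE G Φ χ ch ζ ζ1 R s) v z ≠ 0) → ‖z‖ ≤ b) ∧
    ContinuousOn (fun x : ℝ × V d => sF G r0 R (fP G Φ χ ch ζ ζ1 R x.1) v x.2) (Icc 0 1 ×ˢ univ) ∧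
    ContinuousOn (fun x : ℝ × V d => lap G (sF G r0 R (fP G Φ χ ch ζ ζ1 R x.1) v) x.2) (Icc 0 1 ×ˢ univ) ∧
    ContinuousOn (fun x : ℝ × V d => sF G r0 R (fE G Φ χ ch ζ ζ1 R x.1) v x.2) (Icc 0 1 ×ˢ univ) ∧
    ∀ s ∈ Icc (0 : ℝ) 1, ∀ z, HasDerivAt (fun r => sF G r0 R (fP G Φ χ ch ζ ζ1 R r) v z) (-(Complex.I * Hop G R (sF G r0 R (fP G Φ χ ch ζ ζ1 R s) v) z) + -(Complex.I * sF G r0 R (fE G Φ χ ch ζ ζ1 R s) v z)) s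

/-- **Row ASAD** (THE SYNTHESIS OF BEAMS IS A CONTRACTION; short-medium; from AEND, AFDD, AFBD, AFMD, AFRD, AQAD; copy of VSA). `w 0 = Qs v + sF (difference family) v`; `‖e s‖ ≤ R^(-1/2 + Cζ1) ‖v‖`. Second part: duality (AFRD third part, AFDD `FH`). -/
def ASAD_stmt : Prop := ∀ (d : ℕ) (Γ : Type) [Group Γ] [MulAction Γ (V d)] (K : Set (V d)) (k : ℝ) (B : ℕ → ℕ → ℝ) (r0 : ℝ) (χ : V d → ℝ), FdK Γ K → PU Γ r0 χ → ∃ C : ℝ, 1 ≤ C ∧ ∀ (ch : ℝ → ℝ) (ζ ζ1 : ℝ), CH ch → 0 < ζ → ζ ≤ ζ1 → C * ζ1 ≤ 1 → ∃ R0 : ℝ, 1 ≤ R0 ∧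
  ∀ (R t : ℝ) (G : V d → V d →L[ℝ] V d) (Φ : ℝ → P d → P d), R0 ≤ R → OKA Γ K k B G Φ → 0 ≤ t → t ≤ 1 → ∀ (Λ : Subgroup Γ) (F : Set (V d)) (T : Set Γ), Dm Λ F T →
    (∀ v : YS Γ d → ℂ, FP Λ T v → nn G F (sF G r0 R (fP G Φ χ ch ζ ζ1 R t) v) ≤ (1 + R ^ (-(9 / 40) : ℝ)) ^ 2 * nP G r0 T 2 R v) ∧
    ∀ φ : V d → ℂ, FH Λ F φ → nP G r0 T 2 R (aF G r0 R (fP G Φ χ ch ζ ζ1 R t) φ) ≤ (1 + R ^ (-(9 / 40) : ℝ)) ^ 2 * nn G F φ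

end

end Pool.Agent.VD
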