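import Pool.Agent.helper74.VD.SpecA4
import Pool.Agent.helper11.VD.Spec3d

/-!
# Project VD (MP_07c750_an), block A: glue with the interface file: rows `vd:AXXX`

RULES: as in `SpecA3.lean`, `import Pool.Agent.helper74.VD.SpecA6`.
-/

set_option autoImplicit false

open scoped ContDiff Topology InnerProductSpace ComplexConjugate ENNReal
open MeasureTheory Filter Set

namespace Pool.Agent.VD

noncomputable section

/-- **Row AI2D** (final row I2D; medium; copy of helper54/VQ/VI2.lean; from ATND, AUMD, ADMD, VQ.KPZ, PSY, LEN, CTD, FDE). `mW` is `mWW` of the window `{p | ‖p.1‖ ≤ r0 ∧ |Ep G p| ≤ 2 R^(-1/4)}` (ADMD: measurable, finite volume); length function `L` from LEN; `KY K` gives `KZ Γ (dYS L) K` (the relative charts are in a finite set). Bounded functions are dense in `L²` of the finite measure `mW.restrict (DT d {1})`;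
for bounded measurable `v` on it take the `Γ`-invariant extension `v'(γ, p) = v(1, p)`, cut off outside the window: `FP ⊤ {1} v'`. `∫_(DT {1}) perZ K x y v y = ∫ K x y v' y = Op K v' x` (KPZ). `nP G r0 {1} 2 R` is the norm squared of `L²((mW Γ G r0 R).restrict (DT d {1}))`. Then ATND with `Λ = ⊤`, `F` from FDE (`Dm ⊤ F {1}`). -/
def AI2D_stmt : Prop := I2D_stmt

end

end Pool.Agent.VD
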