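import Pool.Agent.helper62.VD.SpecL2
import Pool.Agent.helper11.VD.Spec3d

/-!
# Project VD (MP_07c750_an), block A: glue with the interface file, part 2: rows `vd:AXXX`

RULES: as in `SpecA3.lean`, `import Pool.Agent.helper74.VD.SpecA7`.
-/

set_option autoImplicit false

open scoped ContDiff Topology InnerProductSpace ComplexConjugate ENNReal
open MeasureTheory Filter Set

namespace Pool.Agent.VD

noncomputable section

/-- **Row AI4D** (final row I4D; short; from AMAD, AUMD). `rS = C` of AUMD; `C` = the maximum of the constants (`Adm` is monotone in `C`); `δ = 1/8` (`R^(-1/7) ≤ R^(-1/8)`); `R^(d+1) ≤ R^(2d)` for `2 ≤ d`; `ub = usn (A.n R)`, `Reach = RC (A.n R)`; `mW ≤ mY`. `OKA` from `FdK`, `Cls`, `IsFlow`. -/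
def AI4D_stmt : Prop := I4D_stmt

end

end Pool.Agent.VD
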